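import Pool.Agent.Lib.MP_045627_gt.Cmc

/-! Asymptotics of the isoperimetric profile. -/

namespace Pool.Agent.Lib.MP_045627_gt

open MeasureTheory Set Filter Metric Real
open scoped Topology

/-- the constant of the lower bound -/
noncomputable def be (l : ℝ) : ℝ := 16 * (1 - (√l)⁻¹) * gam √l ^ 2 * exp 2

lemma be_lim : Tendsto be atTop (𝓝 (4 * π * exp 2)) := by
  have := ((((tendsto_inv_atTop_zero.comp tendsto_sqrt_atTop).const_sub 1).const_mul 16).mul
    ((gam_lim.comp tendsto_sqrt_atTop).pow 2)).mul_const (exp 2)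
  rwa [sub_zero, div_pow, sq_sqrt pi_pos.le, show 16 * 1 * (π / 2 ^ 2) = 4 * π by ring] at this

lemma lowP {l W : ℝ} (hl : 9 ≤ l) (hW : 0 < W) :
    min (be l * (l * exp (2 * l))) (W / l) ≤ profile W := by
  refine le_prof hW fun Ω A h1 h2 h3 h4 => ?_
  have s0 : 3 ≤ √l := le_sqrt_of_sq_le (by linarith)
  have s1 := mul_self_sqrt (show 0 ≤ l by linarith)
  rcases le_total A (be l * (l * exp (2 * l))) with h | h
  · have := low h1 (D := √l) (l := l) (by linarith) (by nlinarith)
      (ENNReal.toReal_nonneg.trans_lt h3) h4 (h.trans_eq (by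
        have := mul_inv_cancel₀ (show √l ≠ 0 by linarith)
        rw [be, exp_add]
        linear_combination (16 * gam √l ^ 2 * exp 2 * exp (2 * l)) * ((√l)⁻¹ * s1 - √l * this)))
    rw [Measure.real, h2, ENNReal.toReal_ofReal hW.le] at this
    exact (min_le_right _ _).trans ((div_le_iff₀' (by linarith)).2 this)
  · exact (min_le_left _ _).trans h

lemma be_pos : ∀ᶠ l in atTop, 9 ≤ l ∧ 0 < be l :=
  (eventually_ge_atTop 9).and (be_lim.eventually_const_lt (by positivity))

lemma prof_pos {V : ℝ} (hV : 0 < V) : 0 < profile V := by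
  obtain ⟨l, h1, h2⟩ := be_pos.exists
  have : 0 < l := by linarith
  exact lt_of_lt_of_le (by positivity) (lowP h1 hV)

lemma upP : ∀ᶠ L in atTop, ca L < 1 ∧ 1 < L ∧
    ∀ V, 0 < V → profile V ≤ V / (L - ca L) + cq L * exp (2 * L) :=
  up'.mono fun L h => ⟨h.1, h.2.1, fun V hV => by
    obtain ⟨Ω, h1, h2, h3⟩ := h.2.2 V hV
    exact prof_le h1 h2 (add_nonneg (div_nonneg hV.le (by linarith [h.1, h.2.1]))
      (by unfold cq; positivity)) h3⟩

/-- volume over area -/
noncomputable def lam (V : ℝ) : ℝ := V / profile V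

lemma lam_lim : Tendsto lam atTop atTop := by
  refine tendsto_atTop.2 fun M => ?_
  obtain ⟨L, ⟨h1, h2, h3⟩, h4⟩ := (upP.and (eventually_ge_atTop (2 * |M| + 2))).exists
  filter_upwards [eventually_gt_atTop 0, eventually_ge_atTop (2 * |M| * (cq L * exp (2 * L)))]
    with V v0 v1
  have a : 2 * |M| * (V / (L - ca L)) ≤ V := by
    rw [← mul_div_assoc, div_le_iff₀ (by linarith)]
    nlinarith
  rw [lam, le_div_iff₀ (prof_pos v0)]
  nlinarith [mul_le_mul_of_nonneg_left (h3 V v0) (abs_nonneg M),
    mul_le_mul_of_nonneg_right (le_abs_self M) (prof_pos v0).le]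

/-- the normalised profile -/
noncomputable def psi (V : ℝ) : ℝ := profile V / (lam V * exp (2 * lam V))

lemma shift (s : ℝ) : Tendsto (fun l : ℝ => (l + s) / l) atTop (𝓝 1) := by
  have := (tendsto_inv_atTop_zero.const_mul s).const_add 1
  rw [mul_zero, add_zero] at this
  refine this.congr' ?_
  filter_upwards [eventually_gt_atTop 0] with l h
  field_simp

lemma psi_lim : Tendsto psi atTop (𝓝 (4 * π * exp 2)) := by
  have t := tendsto_atTop_add_const_right atTop (1 : ℝ) tendsto_id
  have u := (((cq_lim.comp t).mul_const (exp 2)).mul ((shift 1).sub ((ca_lim.comp t).mul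
    tendsto_inv_atTop_zero))).div ((ca_lim.comp t).const_sub 1) (by norm_num)
  rw [show 2 * π * exp 2 * (1 - 1 / 2 * 0) / (1 - 1 / 2) = 4 * π * exp 2 by ring] at u
  refine tendsto_of_tendsto_of_tendsto_of_le_of_le' (be_lim.comp lam_lim) (u.comp lam_lim) ?_ ?_
  · filter_upwards [eventually_gt_atTop 0, lam_lim.eventually_gt_atTop 9] with V v0 h
    have l0 : 0 < lam V := by linarith
    have c : ContinuousAt (fun l => be l * (l * exp (2 * l))) (lam V) := by
      have : Continuous gam := continuous_iff_continuousAt.2 fun r =>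
        (Continuous.integral_hasStrictDerivAt (by fun_prop) 0 r).hasDerivAt.continuousAt
      have := (sqrt_pos.2 l0).ne'
      unfold be
      fun_prop (disch := assumption)
    refine (le_div_iff₀ (by positivity)).2 (le_of_tendsto (c.tendsto.mono_left
      (nhdsWithin_le_nhds (s := Iio (lam V)))) ?_)
    filter_upwards [Ioo_mem_nhdsLT h] with l hl
    refine (min_le_iff.1 (lowP hl.1.le v0)).resolve_right (not_le.2 ?_)
    rw [lt_div_iff₀' (by linarith [hl.1])]
    exact (lt_div_iff₀ (prof_pos v0)).1 hl.2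
  · filter_upwards [eventually_gt_atTop 0, lam_lim.eventually_gt_atTop 0,
      (t.comp lam_lim).eventually upP] with V v0 l0 ⟨h1, _, h3⟩
    have a := h3 V v0
    have b : V = lam V * profile V := (div_mul_cancel₀ _ (prof_pos v0).ne').symm
    simp only [Function.comp_apply, id, Pi.div_apply, psi] at h1 a ⊢
    rw [mul_add, mul_one, exp_add, ← sub_le_iff_le_add, le_div_iff₀ (by linarith)] at a
    rw [div_le_div_iff₀ (by positivity) (by linarith)]
    have := mul_inv_cancel₀ l0.ne'
    rw [div_eq_mul_inv]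
    linear_combination a + b + (cq (lam V + 1) * exp 2 * exp (2 * lam V) *
      (ca (lam V + 1) - lam V - 1)) * this

theorem profile_asy : Tendsto (fun V => 2 * V / profile V - log V + 2 * log (log V)) atTop
    (𝓝 (-2 - log π)) := by
  have p0 : 0 < 4 * π * exp 2 := by positivity
  have l1 := psi_lim.log p0.ne'
  have e : ∀ᶠ V in atTop, 0 < lam V ∧ log V = log (psi V) + 2 * log (lam V) + 2 * lam V := by
    filter_upwards [eventually_gt_atTop 0, lam_lim.eventually_gt_atTop 0] with V v0 l0
    have := prof_pos v0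
    rw [psi, log_div this.ne' (by positivity), log_mul l0.ne' (by positivity), log_exp, lam,
      log_div v0.ne' this.ne']
    exact ⟨l0, by ring⟩
  have l2 : Tendsto (fun V => log V / lam V) atTop (𝓝 2) := by
    have := ((l1.div_atTop lam_lim).add (((isLittleO_log_id_atTop.tendsto_div_nhds_zero).comp
      lam_lim).const_mul 2)).add_const 2
    rw [mul_zero, add_zero, zero_add] at this
    refine this.congr' (e.mono fun V h => ?_)
    have := h.1
    simp only [h.2, Function.comp_apply, id]
    field_simp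
  have := ((l2.log two_ne_zero).const_mul 2).sub l1
  rw [log_mul (by positivity) (by positivity), log_exp, log_mul (by positivity) (by positivity),
    show (4 : ℝ) = 2 ^ 2 by norm_num, log_pow,
    show 2 * log 2 - ((2 : ℕ) * log 2 + log π + 2) = -2 - log π by push_cast; ring] at this
  refine this.congr' ?_
  filter_upwards [e, eventually_gt_atTop 1] with V h v1
  rw [log_div (log_pos v1).ne' h.1.ne', mul_div_assoc, ← lam]
  linarith [h.2]

variable {ι : Type} {F : Filter ι} {V H : ι → ℝ}

lemma vol_top (h0 : ∀ i, 0 < V i)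
    (h : ∀ i W, 0 < W → profile W - 2 * H i * W ≤ profile (V i) - 2 * H i * V i)
    (hH : Tendsto H F (𝓝 0)) : Tendsto V F atTop := by
  refine tendsto_atTop.2 fun M => ?_
  obtain ⟨L, h1, h2, h3⟩ := upP.exists
  obtain ⟨l, ⟨a1, a2⟩, a3⟩ := (be_pos.and ((be_lim.pos_mul_atTop (by positivity)
    (tendsto_id.atTop_mul_atTop₀ (tendsto_exp_atTop.comp (tendsto_id.const_mul_atTop
      two_pos)))).eventually_ge_atTop (M / (L - ca L) + cq L * exp (2 * L) + 1))).exists
  have l0 : 0 < l := by linarith
  set B := be l * (l * exp (2 * l))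
  have B0 : 0 < l * B := by positivity
  have a4 := lowP a1 B0
  rw [mul_div_cancel_left₀ _ l0.ne', min_self] at a4
  filter_upwards [(hH.abs.mul_const (2 * (l * B + M))).eventually_lt_const
    (show |0| * (2 * (l * B + M)) < 1 by simp)] with i hi
  refine le_of_not_gt fun hM => ?_
  have b1 : V i / (L - ca L) ≤ M / (L - ca L) := div_le_div_of_nonneg_right hM.le (by linarith)
  have b2 : M / (L - ca L) + cq L * exp (2 * L) + 1 ≤ B := a3
  nlinarith [h i _ B0, h3 _ (h0 i), mul_le_mul_of_nonneg_right (le_abs_self (H i)) B0.le,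
    mul_le_mul_of_nonneg_right (neg_abs_le (H i)) (h0 i).le,
    mul_le_mul_of_nonneg_left hM.le (abs_nonneg (H i))]

theorem cmc_asy (h0 : ∀ i, 0 < V i)
    (h : ∀ i W, 0 < W → profile W - 2 * H i * W ≤ profile (V i) - 2 * H i * V i)
    (hV : Tendsto V F atTop) :
    Tendsto (fun i => V i * H i ^ 2 * exp (-1 / H i)) F (𝓝 (π * exp 1)) ∧
      Tendsto (fun i => profile (V i) * H i * exp (-1 / H i)) F (𝓝 (2 * π * exp 1)) := by
  have p0 : 0 < 4 * π * exp 2 := by positivity
  have l1 := lam_lim.comp hV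
  have l2 := psi_lim.comp hV
  have key : ∀ s, ∃ κ : ι → ℝ, Tendsto κ F (𝓝 (exp (2 * s))) ∧
      ∀ᶠ i in F, κ i - 1 ≤ 2 * H i * ((lam (V i) + s) * κ i - lam (V i)) := fun s => by
    have t := tendsto_atTop_add_const_right F s l1
    have := (((be_lim.comp t).div l2 p0.ne').mul ((shift s).comp l1)).mul_const (exp (2 * s))
    rw [div_self p0.ne', one_mul, one_mul] at this
    refine ⟨_, this, ?_⟩
    filter_upwards [t.eventually be_pos, l1.eventually_gt_atTop 0] with i ⟨a1, a2⟩ a3
    simp only [Function.comp_apply, Pi.div_apply] at a1 a2 a3 ⊢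
    have l0 : 0 < lam (V i) + s := by linarith
    set B := be (lam (V i) + s) * ((lam (V i) + s) * exp (2 * (lam (V i) + s))) with hB
    have B0 : 0 < (lam (V i) + s) * B := by positivity
    have a4 := lowP a1 B0
    rw [mul_div_cancel_left₀ _ l0.ne', min_self] at a4
    have a5 := prof_pos (h0 i)
    have a6 : be (lam (V i) + s) / psi (V i) * ((lam (V i) + s) / lam (V i)) * exp (2 * s) =
        B / profile (V i) := by
      rw [hB, psi, mul_add 2, exp_add]
      field_simp
    have a7 : lam (V i) * profile (V i) = V i := div_mul_cancel₀ _ a5.ne'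
    have a8 := div_mul_cancel₀ B a5.ne'
    rw [a6]
    refine le_of_mul_le_mul_right ?_ a5
    linear_combination a4 + h i _ B0 + (1 - 2 * H i * (lam (V i) + s)) * a8 + 2 * H i * a7
  have pos : ∀ᶠ i in F, 0 < H i := by
    obtain ⟨κ, k1, k2⟩ := key 1
    filter_upwards [k2, k1.eventually_const_lt (one_lt_exp_iff.2 (by norm_num)),
      l1.eventually_gt_atTop 0] with i a b c
    have c : 0 < lam (V i) := c
    exact lt_of_not_ge fun e => by
      nlinarith [mul_nonneg (neg_nonneg.2 e) (show 0 ≤ (lam (V i) + 1) * κ i - lam (V i) by nlinarith)]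
  have key2 : ∀ a : ℝ, 0 ≤ a → a ≠ 1 / 2 → ∃ κ : ι → ℝ, Tendsto κ F (𝓝 (exp (2 * ((2 * a - 1) / 4)))) ∧
      ∀ᶠ i in F, ((2 * H i)⁻¹ - lam (V i)) * (κ i - 1) < a * (κ i - 1) := fun a a0 ha => by
    obtain ⟨κ, k1, k2⟩ := key ((2 * a - 1) / 4)
    refine ⟨κ, k1, ?_⟩
    filter_upwards [k2, pos, (k1.const_mul ((2 * a + 1) / 4)).eventually_const_lt (show a < _ by
      nlinarith [add_one_le_exp (2 * ((2 * a - 1) / 4)), sq_pos_of_ne_zero (sub_ne_zero.2 ha)])]
      with i b c d
    rw [← inv_mul_le_iff₀ (by positivity)] at b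
    linarith
  have l3 : Tendsto (fun i => (2 * H i)⁻¹ - lam (V i)) F (𝓝 (1 / 2)) := by
    refine tendsto_order.2 ⟨fun a ha => ?_, fun a ha => ?_⟩
    · have m : max a 0 < 1 / 2 := max_lt ha (by norm_num)
      obtain ⟨κ, k1, k2⟩ := key2 (max a 0) (le_max_right _ _) m.ne
      filter_upwards [k2, k1.eventually_lt_const (exp_lt_one_iff.2 (by linarith))] with i b c
      exact (le_max_left _ _).trans_lt (lt_of_mul_lt_mul_of_nonpos_right b (by linarith))
    · obtain ⟨κ, k1, k2⟩ := key2 a (by linarith) ha.ne'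
      filter_upwards [k2, k1.eventually_const_lt (one_lt_exp_iff.2 (by linarith))] with i b c
      exact lt_of_mul_lt_mul_right b (by linarith)
  have l4 := ((l3.div_atTop l1).const_add 1).inv₀ (by norm_num)
  have l5 := (l3.const_mul (-2)).rexp
  have e1 : exp 2 * exp (-2 * (1 / 2)) = exp 1 := by rw [← exp_add]; norm_num
  have e : ∀ᶠ i in F, (1 + ((2 * H i)⁻¹ - lam (V i)) / lam (V i))⁻¹ = 2 * H i * lam (V i) ∧
      psi (V i) * exp (-2 * ((2 * H i)⁻¹ - lam (V i))) * lam (V i) =
        profile (V i) * exp (-1 / H i) ∧ lam (V i) * profile (V i) = V i := by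
    filter_upwards [pos, l1.eventually_gt_atTop 0] with i a b
    have b : 0 < lam (V i) := b
    refine ⟨by field_simp; ring, ?_, div_mul_cancel₀ _ (prof_pos (h0 i)).ne'⟩
    rw [psi, show -2 * ((2 * H i)⁻¹ - lam (V i)) = -1 / H i + 2 * lam (V i) by field_simp; ring,
      exp_add]
    field_simp
  constructor
  · have := ((l2.mul l5).mul (l4.pow 2)).div_const 4
    rw [show 4 * π * exp 2 * exp (-2 * (1 / 2)) * (1 + 0)⁻¹ ^ 2 / 4 = π * exp 1 by
      rw [← e1]; ring] at this
    refine this.congr' (e.mono fun i h => ?_)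
    simp only [Function.comp_apply, h.1]
    linear_combination H i ^ 2 * lam (V i) * h.2.1 + H i ^ 2 * exp (-1 / H i) * h.2.2
  · have := ((l2.mul l5).mul l4).div_const 2
    rw [show 4 * π * exp 2 * exp (-2 * (1 / 2)) * (1 + 0)⁻¹ / 2 = 2 * π * exp 1 by
      rw [← e1]; ring] at this
    refine this.congr' (e.mono fun i h => ?_)
    simp only [Function.comp_apply, h.1]
    linear_combination H i * h.2.1

end Pool.Agent.Lib.MP_045627_gt
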