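import Pool.Agent.Lib.MP_045627_gt.TopA

/-! Volume and perimeter of regions with rectangular horizontal sections. -/

namespace Pool.Agent.Lib.MP_045627_gt

open MeasureTheory Set Filter Metric
open scoped Topology

lemma det3 (A : P3 →L[ℝ] P3) {a b c : ℝ} (h1 : A (1, 0, 0) = (a, 0, 0))
    (h2 : A (0, 1, 0) = (0, b, 0)) (h3 : (A (0, 0, 1)).2.2 = c) : A.det = a * b * c := by
  let e : (Fin 3 → ℝ) ≃ₗ[ℝ] P3 :=
    { toFun := fun v => (v 0, v 1, v 2)
      invFun := fun p => ![p.1, p.2.1, p.2.2]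
      map_add' := fun _ _ => rfl
      map_smul' := fun _ _ => rfl
      left_inv := fun v => by ext i; fin_cases i <;> rfl
      right_inv := fun _ => rfl }
  rw [ContinuousLinearMap.det, ← LinearMap.det_toMatrix ((Pi.basisFun ℝ (Fin 3)).map e),
    Matrix.det_fin_three]
  have e1 : ∀ v, e v = (v 0, v 1, v 2) := fun _ => rfl
  have e2 : ∀ p, e.symm p = ![p.1, p.2.1, p.2.2] := fun _ => rfl
  simp [LinearMap.toMatrix_apply, e1, e2, h1, h2, h3]

lemma expand {E : Type} [NormedAddCommGroup E] [NormedSpace ℝ E] (A : P3 →L[ℝ] E) (a b c : ℝ) :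
    A (a, b, c) = a • A (1, 0, 0) + b • A (0, 1, 0) + c • A (0, 0, 1) := by
  simp only [← map_smul, ← map_add]
  simp

lemma box1 {W W' : P3 → ℝ} (hc : Continuous W') {S : Set (ℝ × ℝ)} (hS : IsCompact S) {a b : ℝ}
    (hab : a ≤ b) (hd : ∀ s w, HasDerivAt (fun s => W (s, w)) (W' (s, w)) s) :
    ∫ p in Icc a b ×ˢ S, W' p = ∫ w in S, (W (b, w) - W (a, w)) := by
  have h : IntegrableOn W' (Icc a b ×ˢ S) := hc.continuousOn.integrableOn_compact
    (isCompact_Icc.prod hS)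
  rw [IntegrableOn, Measure.volume_eq_prod, ← Measure.prod_restrict] at h
  rw [Measure.volume_eq_prod, ← Measure.prod_restrict, integral_prod_symm _ h]
  refine integral_congr_ae (.of_forall fun w => ?_)
  simp only
  rw [integral_Icc_eq_integral_Ioc, ← intervalIntegral.integral_of_le hab,
    intervalIntegral.integral_eq_sub_of_hasDerivAt (fun s _ => hd s w)
      ((hc.comp (by fun_prop)).intervalIntegrable _ _)]

lemma face {W : ℝ × ℝ → ℝ} {u : ℝ → ℝ} {L : ℝ} (hL : 0 ≤ L) (hW : Continuous W)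
    (hu : Continuous u) (h : ∀ w ∈ Icc (-1 : ℝ) 1 ×ˢ Icc (-L) L, W w ≤ u w.2) :
    ∫ w in Icc (-1 : ℝ) 1 ×ˢ Icc (-L) L, W w ≤ 2 * ∫ z in -L..L, u z := by
  have hK := (isCompact_Icc (a := (-1 : ℝ)) (b := 1)).prod (isCompact_Icc (a := -L) (b := L))
  refine (setIntegral_mono_on (hW.continuousOn.integrableOn_compact hK)
    ((hu.comp continuous_snd).continuousOn.integrableOn_compact hK) hK.measurableSet h).trans_eq ?_
  have := setIntegral_prod_mul (μ := volume) (ν := volume) (fun _ : ℝ => (1 : ℝ)) u (Icc (-1) 1)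
    (Icc (-L) L)
  simp only [one_mul] at this
  rw [intervalIntegral.integral_of_le (by linarith), ← integral_Icc_eq_integral_Ioc]
  refine this.trans ?_
  norm_num

lemma amgm {e F G s t : ℝ} (he : 0 < e) (ht : 0 < t) (hs : s ^ 2 = t ^ 2)
    (h : e * F ^ 2 + G ^ 2 ≤ 1) : |F + s * G| ≤ t + e⁻¹ / (2 * t) := by
  have h1 : |F| ≤ e⁻¹ / (2 * t) + t * e * F ^ 2 / 2 := by
    have : e⁻¹ / (2 * t) + t * e * F ^ 2 / 2 - |F| = (1 - t * e * |F|) ^ 2 / (2 * t * e) := by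
      rw [← sq_abs F]; field_simp; ring
    have h2 : 0 ≤ (1 - t * e * |F|) ^ 2 / (2 * t * e) := by positivity
    linarith
  have h2 : |s * G| ≤ t * (1 + G ^ 2) / 2 := by
    rw [abs_mul, (sq_eq_sq_iff_abs_eq_abs _ _).1 hs, abs_of_pos ht, ← sq_abs G]
    nlinarith [mul_nonneg ht.le (sq_nonneg (1 - |G|))]
  nlinarith [abs_add_le F (s * G), mul_le_mul_of_nonneg_left h ht.le]

lemma null_plane (c : ℝ) : ∀ᵐ p : P3, p.2.2 ≠ c := by
  rw [ae_iff, show {p : P3 | ¬p.2.2 ≠ c} = univ ×ˢ (univ ×ˢ {c}) by ext; simp,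
    Measure.volume_eq_prod, Measure.prod_prod, Measure.volume_eq_prod, Measure.prod_prod]
  simp

lemma comp3 {γ : ℝ → P3} {v : P3} {s : ℝ} (h : HasDerivAt γ v s) :
    HasDerivAt (fun t => (γ t).1) v.1 s ∧ HasDerivAt (fun t => (γ t).2.1) v.2.1 s ∧
      HasDerivAt (fun t => (γ t).2.2) v.2.2 s :=
  ⟨HasFDerivAt.fst h, (HasFDerivAt.snd h).fst, (HasFDerivAt.snd h).snd⟩

lemma cont_face {t : ℝ → ℝ} (h : Continuous t) (h0 : ∀ z, 0 < t z) (c : ℝ) :
    Continuous fun z => t z + (Real.exp (c * z))⁻¹ / (2 * t z) :=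
  h.add ((Continuous.inv₀ (by fun_prop) fun _ => (Real.exp_pos _).ne').div (by fun_prop)
    fun z => (mul_pos two_pos (h0 z)).ne')

theorem per_box {L : ℝ} (hL : 0 < L) {f g f' g' : ℝ → ℝ} (hf : ∀ z, HasDerivAt f (f' z) z)
    (hg : ∀ z, HasDerivAt g (-g' z) z) (cf : Continuous f') (cg : Continuous g')
    (pf : ∀ z, 0 < f' z) (pg : ∀ z, 0 < g' z) (f0 : f (-L) = 0) (g0 : g L = 0) :
    ∃ Ω : Set P3, IsCompact Ω ∧ volume Ω = ENNReal.ofReal (4 * ∫ z in -L..L, f z * g z) ∧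
      per Ω ≤ ENNReal.ofReal
        (4 * g (-L) * (∫ z in -L..L, (f' z + (Real.exp (2 * z))⁻¹ / (2 * f' z))) +
          4 * f L * ∫ z in -L..L, (g' z + (Real.exp (-2 * z))⁻¹ / (2 * g' z))) := by
  have mf : StrictMono f := strictMono_of_hasDerivAt_pos hf pf
  have mg : StrictAnti g := strictAnti_of_hasDerivAt_neg hg fun z => neg_lt_zero.2 (pg z)
  have c1 : Continuous f := continuous_iff_continuousAt.2 fun z => (hf z).continuousAt
  have c2 : Continuous g := continuous_iff_continuousAt.2 fun z => (hg z).continuousAt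
  let Φ : P3 → P3 := fun p => (p.1 * f p.2.2, p.2.1 * g p.2.2, p.2.2)
  have cΦ : Continuous Φ := by fun_prop
  set S : Set (ℝ × ℝ) := Icc (-1) 1 ×ˢ Icc (-L) L with hS
  have kS : IsCompact S := isCompact_Icc.prod isCompact_Icc
  have kB : IsCompact (Icc (-1 : ℝ) 1 ×ˢ S) := isCompact_Icc.prod kS
  have cov : ∀ F : P3 → ℝ, ∫ p in Φ '' (Icc (-1) 1 ×ˢ S), F p =
      ∫ p in Icc (-1 : ℝ) 1 ×ˢ S, f p.2.2 * g p.2.2 * F (Φ p) := fun F => by
    let B : Set P3 := Icc (-1) 1 ×ˢ (Icc (-1) 1 ×ˢ Ioo (-L) L)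
    have mB : MeasurableSet B := measurableSet_Icc.prod (measurableSet_Icc.prod measurableSet_Ioo)
    have e0 : ∀ p : P3, p.2.2 ≠ -L → p.2.2 ≠ L → (p ∈ Icc (-1 : ℝ) 1 ×ˢ S ↔ p ∈ B) :=
      fun p h1 h2 => ⟨fun h => ⟨h.1, h.2.1, h.2.2.1.lt_of_ne h1.symm, h.2.2.2.lt_of_ne h2⟩,
        fun h => ⟨h.1, h.2.1, Ioo_subset_Icc_self h.2.2⟩⟩
    have e1 : (Icc (-1 : ℝ) 1 ×ˢ S : Set P3) =ᵐ[volume] B := by
      filter_upwards [null_plane (-L), null_plane L] with p h1 h2 using propext (e0 p h1 h2)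
    have e2 : Φ '' (Icc (-1) 1 ×ˢ S) =ᵐ[volume] Φ '' B := by
      filter_upwards [null_plane (-L), null_plane L] with p h1 h2
      refine propext (exists_congr fun q => and_congr_left ?_)
      rintro rfl
      exact e0 q h1 h2
    have pos : ∀ p ∈ B, 0 < f p.2.2 ∧ 0 < g p.2.2 := fun p hp =>
      ⟨f0 ▸ mf hp.2.2.1, g0 ▸ mg hp.2.2.2⟩
    have d : ∀ p : P3, ∃ A : P3 →L[ℝ] P3, HasFDerivAt Φ A p ∧ A.det = f p.2.2 * g p.2.2 * 1 :=
      fun p => ⟨_, (hasFDerivAt_fst.mul ((hf _).hasFDerivAt.comp p hasFDerivAt_snd.snd)).prodMk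
        ((hasFDerivAt_snd.fst.mul ((hg _).hasFDerivAt.comp p hasFDerivAt_snd.snd)).prodMk
          hasFDerivAt_snd.snd), det3 _ (by simp) (by simp) (by simp)⟩
    choose A d1 d2 using d
    rw [setIntegral_congr_set e1, setIntegral_congr_set e2,
      integral_image_eq_integral_abs_det_fderiv_smul volume mB (fun p _ => (d1 p).hasFDerivWithinAt)
        fun p hp q hq e => ?_]
    · exact setIntegral_congr_fun mB fun p hp => by
        simp only [d2, mul_one, abs_of_pos (mul_pos (pos p hp).1 (pos p hp).2), smul_eq_mul]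
    · simp only [Φ, Prod.mk.injEq] at e
      obtain ⟨a1, a2, a3⟩ := e
      rw [← a3] at a1 a2
      exact Prod.ext (mul_right_cancel₀ (pos p hp).1.ne' a1)
        (Prod.ext (mul_right_cancel₀ (pos p hp).2.ne' a2) a3)
  refine ⟨_, kB.image cΦ, ?_, iSup₂_le fun X ⟨x1, _, x3⟩ => ENNReal.ofReal_le_ofReal ?_⟩
  · rw [← ofReal_measureReal (kB.image cΦ).measure_lt_top.ne, ← setIntegral_one_eq_measureReal,
      cov, intervalIntegral.integral_of_le (by linarith), ← integral_Icc_eq_integral_Ioc]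
    have a1 := setIntegral_prod_mul (μ := volume) (ν := volume) (fun _ : ℝ => (1 : ℝ))
      (fun w : ℝ × ℝ => f w.2 * g w.2) (Icc (-1) 1) S
    have a2 := setIntegral_prod_mul (μ := volume) (ν := volume) (fun _ : ℝ => (1 : ℝ))
      (fun z => f z * g z) (Icc (-1) 1) (Icc (-L) L)
    simp only [one_mul, mul_one] at a1 a2 ⊢
    refine congrArg _ (a1.trans ((congrArg _ a2).trans ?_))
    norm_num
    ring
  have cX := x1.continuous
  have cD := x1.continuous_fderiv one_ne_zero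
  have dX := fun p => (x1.differentiable one_ne_zero p).hasFDerivAt
  let W1 : P3 → ℝ := fun p => g p.2.2 * ((fderiv ℝ X (Φ p) (f p.2.2, 0, 0)).1 -
    (f' p.2.2 * (X (Φ p)).2.2 + p.1 * f' p.2.2 * (fderiv ℝ X (Φ p) (f p.2.2, 0, 0)).2.2))
  let W2 : P3 → ℝ := fun p => f p.2.2 * ((fderiv ℝ X (Φ p) (0, g p.2.2, 0)).2.1 +
    (g' p.2.2 * (X (Φ p)).2.2 + p.2.1 * g' p.2.2 * (fderiv ℝ X (Φ p) (0, g p.2.2, 0)).2.2))
  let W3 : P3 → ℝ := fun p => (f' p.2.2 * g p.2.2 + f p.2.2 * -g' p.2.2) * (X (Φ p)).2.2 +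
    f p.2.2 * g p.2.2 * (fderiv ℝ X (Φ p) (p.1 * f' p.2.2, p.2.1 * -g' p.2.2, 1)).2.2
  have w1 : Continuous W1 := by fun_prop
  have w2 : Continuous W2 := by fun_prop
  have w3 : Continuous W3 := by fun_prop
  have b1 := box1 w1 kS (a := -1) (b := 1) (by norm_num)
    (W := fun p => g p.2.2 * ((X (Φ p)).1 - p.1 * f' p.2.2 * (X (Φ p)).2.2)) fun s w => by
      have d := (dX (Φ (s, w))).comp_hasDerivAt s
        ((hasDerivAt_mul_const (f w.2)).prodMk (hasDerivAt_const s (w.1 * g w.2, w.2)))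
      exact ((comp3 d).1.sub ((hasDerivAt_mul_const (f' w.2)).mul (comp3 d).2.2)).const_mul (g w.2)
  have b2 := box1 (w2.comp sw.continuous) kS (a := -1) (b := 1) (by norm_num)
    (W := fun p => f p.2.2 * ((X (Φ (sw p))).2.1 + p.1 * g' p.2.2 * (X (Φ (sw p))).2.2))
    fun s w => by
      have d := (dX (Φ (w.1, s, w.2))).comp_hasDerivAt s ((hasDerivAt_const s (w.1 * f w.2)).prodMk
        ((hasDerivAt_mul_const (g w.2)).prodMk (hasDerivAt_const s w.2)))
      exact ((comp3 d).2.1.add ((hasDerivAt_mul_const (g' w.2)).mul (comp3 d).2.2)).const_mul (f w.2)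
  have b3 := box1 (w3.comp (sw.trans sw').continuous)
    ((isCompact_Icc (a := (-1 : ℝ)) (b := 1)).prod (isCompact_Icc (a := (-1 : ℝ)) (b := 1)))
    (a := -L) (b := L) (by linarith)
    (W := fun p => f p.1 * g p.1 * (X (Φ (p.2.1, p.2.2, p.1))).2.2) fun s w => by
      have d := (dX (Φ (w.1, w.2, s))).comp_hasDerivAt s (((hf s).const_mul w.1).prodMk
        (((hg s).const_mul w.2).prodMk (hasDerivAt_id s)))
      exact ((hf s).mul (hg s)).mul (comp3 d).2.2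
  have t2 := mp_sw.setIntegral_preimage_emb sw.toHomeomorph.measurableEmbedding W2
    (Icc (-1 : ℝ) 1 ×ˢ S)
  have t3 := (mp_sw'.comp mp_sw).setIntegral_preimage_emb
    (sw.trans sw').toHomeomorph.measurableEmbedding W3 (Icc (-1 : ℝ) 1 ×ˢ S)
  rw [show sw ⁻¹' (Icc (-1 : ℝ) 1 ×ˢ S) = Icc (-1 : ℝ) 1 ×ˢ S from
    Set.ext fun p => ⟨fun h => ⟨h.2.1, h.1, h.2.2⟩, fun h => ⟨h.2.1, h.1, h.2.2⟩⟩] at t2
  rw [show sw' ∘ sw ⁻¹' (Icc (-1 : ℝ) 1 ×ˢ S) = Icc (-L) L ×ˢ (Icc (-1 : ℝ) 1 ×ˢ Icc (-1 : ℝ) 1) from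
    Set.ext fun p => ⟨fun h => ⟨h.2.2, h.1, h.2.1⟩, fun h => ⟨h.2.1, h.2.2, h.1⟩⟩] at t3
  simp only [f0, g0, zero_mul, mul_zero, sub_zero, integral_zero] at b3
  have i := fun (W : P3 → ℝ) (h : Continuous W) => h.continuousOn.integrableOn_compact (μ := volume) kB
  rw [cov, setIntegral_congr_fun (g := fun p => W1 p + W2 p + W3 p) kB.measurableSet fun p _ => by
      simp only [W1, W2, W3, dv]
      rw [expand _ (f p.2.2), expand _ 0 (g p.2.2), expand _ (p.1 * f' p.2.2)]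
      simp
      ring, integral_add (f := fun p => W1 p + W2 p) (i _ (w1.add w2)) (i _ w3),
    integral_add (i _ w1) (i _ w2), b1, t2.symm.trans b2, t3.symm.trans b3, add_zero]
  have key : ∀ {k M t e x x' : ℝ}, 0 ≤ k → k ≤ M → |x| ≤ t + e → |x'| ≤ t + e →
      k * x - k * x' ≤ 2 * M * (t + e) := fun h1 h2 h3 h4 => by
    nlinarith [abs_le.1 h3, abs_le.1 h4, mul_le_mul_of_nonneg_right h2 ((abs_nonneg _).trans h3),
      mul_le_mul_of_nonneg_left (abs_le.1 h3).2 h1, mul_le_mul_of_nonneg_left (abs_le.1 h4).1 h1]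
  have n1 : ∀ q : P3, Real.exp (2 * q.2.2) * (X q).1 ^ 2 + (X q).2.2 ^ 2 ≤ 1 := fun q => by
    have := x3 q
    unfold nsq at this
    linarith [mul_nonneg (Real.exp_pos (-2 * q.2.2)).le (sq_nonneg (X q).2.1)]
  have n2 : ∀ q : P3, Real.exp (-2 * q.2.2) * (X q).2.1 ^ 2 + (X q).2.2 ^ 2 ≤ 1 := fun q => by
    have := x3 q
    unfold nsq at this
    linarith [mul_nonneg (Real.exp_pos (2 * q.2.2)).le (sq_nonneg (X q).1)]
  refine add_le_add ((face hL.le (by fun_prop)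
    (u := fun z => 2 * g (-L) * (f' z + (Real.exp (2 * z))⁻¹ / (2 * f' z)))
    ((cont_face cf pf 2).const_mul _) fun w hw => ?_).trans_eq ?_)
    ((face hL.le (by fun_prop)
    (u := fun z => 2 * f L * (g' z + (Real.exp (-2 * z))⁻¹ / (2 * g' z)))
    ((cont_face cg pg (-2)).const_mul _) fun w hw => ?_).trans_eq ?_)
  · simp only [sub_eq_add_neg (X _).1, ← neg_mul]
    exact key (g0 ▸ mg.antitone hw.2.2) (mg.antitone hw.2.1)
      (amgm (Real.exp_pos _) (pf _) (by ring) (n1 (Φ (1, w))))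
      (amgm (Real.exp_pos _) (pf _) (by ring) (n1 (Φ (-1, w))))
  · rw [intervalIntegral.integral_const_mul]; ring
  · exact key (f0 ▸ mf.monotone hw.2.1) (mf.monotone hw.2.2)
      (amgm (Real.exp_pos _) (pg _) (by ring) (n2 (Φ (sw (1, w)))))
      (amgm (Real.exp_pos _) (pg _) (by ring) (n2 (Φ (sw (-1, w)))))
  · rw [intervalIntegral.integral_const_mul]; ring

end Pool.Agent.Lib.MP_045627_gt
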