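import Pool.Agent.Lib.MP_045627_gt.Cmp

/-! A Minkowski formula and the supporting line of a constant mean curvature boundary. -/

namespace Pool.Agent.Lib.MP_045627_gt

open MeasureTheory Set Filter Metric
open scoped Topology ContDiff

/-- directional derivative -/
noncomputable def pd (e : P3) (f : P3 → ℝ) (p : P3) : ℝ := fderiv ℝ f p e

lemma pd_diff {f : P3 → ℝ} (h : ContDiff ℝ ∞ f) (e : P3) : ContDiff ℝ 1 (pd e f) :=
  (h.fderiv_right (m := 1) (WithTop.coe_le_coe.2 le_top : ((2 : ℕ∞) : WithTop ℕ∞) ≤ ∞)).clm_apply contDiff_const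

lemma pd_comm {f : P3 → ℝ} (h : ContDiff ℝ ∞ f) (e e' p : P3) :
    fderiv ℝ (pd e f) p e' = fderiv ℝ (pd e' f) p e := by
  have d := (h.fderiv_right (m := 1) (WithTop.coe_le_coe.2 le_top : ((2 : ℕ∞) : WithTop ℕ∞) ≤ ∞)).differentiable one_ne_zero p
  unfold pd
  rw [fderiv_clm_apply d (differentiableAt_const _), fderiv_clm_apply d (differentiableAt_const _)]
  simpa using (h.contDiffAt.isSymmSndFDerivAt (by simpa using
    (WithTop.coe_le_coe.2 le_top : ((2 : ℕ∞) : WithTop ℕ∞) ≤ ∞))) e' e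

lemma dv_curl {P Q R : P3 → ℝ} (hP : ContDiff ℝ ∞ P) (hQ : ContDiff ℝ ∞ Q) (hR : ContDiff ℝ ∞ R)
    (p : P3) : dv (fun q => (1 : ℝ) • (pd (0, 1, 0) P q + pd (0, 0, 1) Q q,
      pd (0, 0, 1) R q - pd (1, 0, 0) P q, -pd (1, 0, 0) Q q - pd (0, 1, 0) R q)) p = 0 := by
  have d := fun f (h : ContDiff ℝ ∞ f) e => (pd_diff h e).differentiable one_ne_zero p
  rw [dv_mk ((d P hP _).fun_add (d Q hQ _)) ((d R hR _).fun_sub (d P hP _))
    ((d Q hQ _).fun_neg.fun_sub (d R hR _)), fderiv_fun_add (d P hP _) (d Q hQ _),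
    fderiv_fun_sub (d R hR _) (d P hP _), fderiv_fun_sub (d Q hQ _).fun_neg (d R hR _),
    fderiv_fun_neg]
  simp only [add_apply, sub_apply, neg_apply]
  rw [pd_comm hP (0, 1, 0), pd_comm hQ (0, 0, 1), pd_comm hR (0, 0, 1)]
  ring

variable {ρ : P3 → ℝ} {H : ℝ}

theorem CMC.support (h : CMC ρ H) {V W : ℝ} (hV : 0 < V)
    (hv : volume {p | ρ p ≤ 0} = ENNReal.ofReal V) (hW : 0 < W) : per {p | ρ p ≤ 0} ≠ ⊤ ∧
      profile W - 2 * H * W ≤ (per {p | ρ p ≤ 0}).toReal - 2 * H * V := by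
  obtain ⟨ν, n0, n1, n2, n3⟩ := h.normal
  have c := h.compact
  have n0' : ContDiff ℝ 1 ν := n0.of_le (by exact_mod_cast le_top)
  have n4 := fun p hp => (n2 p hp).2.self_of_nhds
  have a1 : per {p | ρ p ≤ 0} = ENNReal.ofReal (∫ p in {p | ρ p ≤ 0}, dv ν p) :=
    le_antisymm (iSup₂_le fun X hX => ENNReal.ofReal_le_ofReal (n3 X ν hX.1 n0' fun p hp => by
      have a := n4 p hp
      have b := hX.2.2 p
      simp only [nsq, ip] at a b ⊢
      nlinarith [mul_nonneg (Real.exp_pos (2 * p.2.2)).le (sq_nonneg ((ν p).1 - (X p).1)),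
        mul_nonneg (Real.exp_pos (-2 * p.2.2)).le (sq_nonneg ((ν p).2.1 - (X p).2.1)),
        sq_nonneg ((ν p).2.2 - (X p).2.2)])) (le_per' c n0' n1)
  have a2 := n3 (fun _ => 0) ν contDiff_const n0' fun p hp => by
    have a := nsq_nonneg p (ν p)
    simp only [nsq, ip, Prod.fst_zero, Prod.snd_zero] at a ⊢
    linarith
  rw [show dv (fun _ => 0) = fun _ => 0 from funext fun p => by simp [dv], integral_zero] at a2
  let Y : P3 → P3 := fun p => ((1 + (ν p).2.2 ^ 2) / 2) • ν p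
  have y : ContDiff ℝ 1 Y := by fun_prop
  have y1 : ∀ p, ρ p = 0 → ip p (ν p) (Y p) = (1 + (ν p).2.2 ^ 2) / 2 := fun p hp => by
    have a := n4 p hp
    simp only [nsq, ip, Y, Prod.smul_fst, Prod.smul_snd, smul_eq_mul] at a ⊢
    linear_combination (1 + (ν p).2.2 ^ 2) / 2 * a
  have mk : ∫ p in {p | ρ p ≤ 0}, dv Y p = 2 * H * V := by
    let E : P3 → P3 := fun p => (p.1, p.2.1, 0)
    have e0 : ContDiff ℝ 1 E := by fun_prop
    have e1 : ∫ p in {p | ρ p ≤ 0}, dv E p = 2 * V := by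
      rw [show dv E = fun _ => 2 from funext fun p => by
        rw [dv, (hasFDerivAt_fst.prodMk (hasFDerivAt_snd.fst.prodMk
          (hasFDerivAt_const (0 : ℝ) p))).fderiv]
        norm_num, setIntegral_const, Measure.real, hv, ENNReal.toReal_ofReal hV.le, smul_eq_mul,
        mul_comm]
    let P : P3 → ℝ := fun q => q.1 * (ν q).2.1 - q.2.1 * (ν q).1
    let Q : P3 → ℝ := fun q => q.1 * (ν q).2.2
    let R : P3 → ℝ := fun q => q.2.1 * (ν q).2.2
    have hP : ContDiff ℝ ∞ P := by fun_prop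
    have hQ : ContDiff ℝ ∞ Q := by fun_prop
    have hR : ContDiff ℝ ∞ R := by fun_prop
    let Z : P3 → P3 := fun q => (1 : ℝ) • (pd (0, 1, 0) P q + pd (0, 0, 1) Q q,
      pd (0, 0, 1) R q - pd (1, 0, 0) P q, -pd (1, 0, 0) Q q - pd (0, 1, 0) R q)
    have z0 : ContDiff ℝ 1 Z := (((pd_diff hP _).add (pd_diff hQ _)).prodMk
      (((pd_diff hR _).sub (pd_diff hP _)).prodMk
        ((pd_diff hQ _).neg.sub (pd_diff hR _)))).const_smul _
    have z1 : ∫ p in {p | ρ p ≤ 0}, dv Z p = 0 := by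
      rw [show dv Z = fun _ => 0 from funext (dv_curl hP hQ hR), integral_zero]
    have z2 : ∀ p, ρ p = 0 →
        ip p (ν p) ((1 : ℝ) • Z p + (2 : ℝ) • Y p) = ip p (ν p) (H • E p + H • E p) := fun p hp => by
      have d := (n0'.differentiable one_ne_zero p).hasFDerivAt
      have f1 := hasFDerivAt_fst (𝕜 := ℝ) (p := p)
      have f2 := (hasFDerivAt_snd (𝕜 := ℝ) (p := p)).fst
      have f3 := (hasFDerivAt_snd (𝕜 := ℝ) (p := p)).snd
      have dP : fderiv ℝ P p = _ := ((f1.mul d.snd.fst).sub (f2.mul d.fst)).fderiv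
      have dQ : fderiv ℝ Q p = _ := (f1.mul d.snd.snd).fderiv
      have dR : fderiv ℝ R p = _ := (f2.mul d.snd.snd).fderiv
      have dN := ((((f3.const_mul 2).exp.mul (d.fst.pow 2)).add ((f3.const_mul (-2)).exp.mul
        (d.snd.fst.pow 2))).add (d.snd.snd.pow 2)).unique
        ((hasFDerivAt_const (1 : ℝ) p).congr_of_eventuallyEq (n2 p hp).2)
      have b1 := DFunLike.congr_fun dN (1, 0, 0)
      have b2 := DFunLike.congr_fun dN (0, 1, 0)
      have b3 := (n2 p hp).1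
      have b4 := n4 p hp
      simp [ip, nsq, dv, Z, Y, E, pd, dP, dQ, dR] at b1 b2 b3 b4 ⊢
      linear_combination (Real.exp (2 * p.2.2) * (ν p).1 * p.1 +
        Real.exp (-(2 * p.2.2)) * (ν p).2.1 * p.2.1) * b3 - p.1 / 2 * b1 - p.2.1 / 2 * b2 +
        (ν p).2.2 ^ 2 * b4
    have z3 := (z0.const_smul (1 : ℝ)).add (y.const_smul (2 : ℝ))
    have z4 := (e0.const_smul H).add (e0.const_smul H)
    have := le_antisymm (n3 _ _ z3 z4 fun p hp => (z2 p hp).le) (n3 _ _ z4 z3 fun p hp => (z2 p hp).ge)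
    rw [int_comb z0 y c, int_comb e0 e0 c, z1, e1] at this
    linarith
  obtain ⟨s, s0, hs⟩ : ∃ s, 0 < s ∧ s ^ 2 * V = W :=
    ⟨_, Real.sqrt_pos.2 (div_pos hW hV), by
      rw [Real.sq_sqrt (div_pos hW hV).le, div_mul_cancel₀ _ hV.ne']⟩
  have := prof_le' c s0 hv fun X x1 x2 => n3 _ _ (pull_diff s x1)
    ((y.const_smul (s ^ 2 - 1)).add (n0'.const_smul (1 : ℝ))) fun p hp => by
      have a := n4 p hp
      have b := mul_le_mul_of_nonneg_left (x2 (dil s p)) (sq_nonneg s)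
      have e := y1 p hp
      simp only [nsq, ip, pull, Prod.fst_add, Prod.snd_add, Prod.smul_fst, Prod.smul_snd,
        smul_eq_mul, show (dil s p).2.2 = p.2.2 from rfl] at a b e ⊢
      linear_combination (1 - s ^ 2) * e - a / 2 + b / 2 +
        mul_nonneg (Real.exp_pos (2 * p.2.2)).le (sq_nonneg ((ν p).1 - s * (X (dil s p)).1)) / 2 +
        mul_nonneg (Real.exp_pos (-2 * p.2.2)).le
          (sq_nonneg ((ν p).2.1 - s * (X (dil s p)).2.1)) / 2 +
        mul_nonneg (sq_nonneg s) (sq_nonneg ((ν p).2.2 - (X (dil s p)).2.2)) / 2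
  rw [int_comb y n0' c, mk, hs] at this
  rw [a1, ENNReal.toReal_ofReal a2]
  exact ⟨ENNReal.ofReal_ne_top, by linear_combination this + 2 * H * hs⟩

end Pool.Agent.Lib.MP_045627_gt
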