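import Pool.Agent.Lib.MP_045627_gt.Dil

/-! A comparison form of the divergence theorem. -/

namespace Pool.Agent.Lib.MP_045627_gt

open MeasureTheory Set Filter Metric
open scoped Topology ContDiff

lemma int_parts {u : P3 → ℝ} {X : P3 → P3} (hu : ContDiff ℝ 1 u) (hc : HasCompactSupport u)
    (hX : ContDiff ℝ 1 X) : ∫ p, u p * dv X p = -∫ p, fderiv ℝ u p (X p) := by
  have i : ∀ (e : P3) (f : P3 → ℝ), Continuous f → Integrable fun p => fderiv ℝ u p e * f p :=
    fun e f hf => int_mul hf.locallyIntegrable (cont_d hu e) (hc.fderiv_apply ℝ e)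
  have j : ∀ f : P3 → ℝ, Continuous f → Integrable fun p => u p * f p :=
    fun f hf => int_mul hf.locallyIntegrable hu.continuous hc
  have k : ∀ (e : P3) (f : P3 → ℝ), ContDiff ℝ 1 f →
      ∫ p, u p * fderiv ℝ f p e = -∫ p, fderiv ℝ u p e * f p := fun e f hf =>
    integral_mul_fderiv_eq_neg_fderiv_mul_of_integrable (i e f hf.continuous) (j _ (cont_d hf e))
      (j f hf.continuous) (fun p _ => hu.differentiable one_ne_zero p)
      fun p _ => hf.differentiable one_ne_zero p
  have d : ∀ p, dv X p = fderiv ℝ (fun q => (X q).1) p (1, 0, 0) +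
      fderiv ℝ (fun q => (X q).2.1) p (0, 1, 0) + fderiv ℝ (fun q => (X q).2.2) p (0, 0, 1) :=
    fun p => by
      have := hX.differentiable one_ne_zero p
      simpa using dv_mk this.fst this.snd.fst this.snd.snd 1
  have e : ∀ p, fderiv ℝ u p (X p) = fderiv ℝ u p (1, 0, 0) * (X p).1 +
      fderiv ℝ u p (0, 1, 0) * (X p).2.1 + fderiv ℝ u p (0, 0, 1) * (X p).2.2 := fun p =>
    (expand _ _ _ _).trans (by simp only [smul_eq_mul, mul_comm])
  have c := hX.continuous
  simp only [d, e, mul_add]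
  rw [integral_add (f := fun p => _ + _) ((j _ (cont_d hX.fst _)).add (j _ (cont_d hX.snd.fst _)))
    (j _ (cont_d hX.snd.snd _)), integral_add (j _ (cont_d hX.fst _)) (j _ (cont_d hX.snd.fst _)),
    integral_add (f := fun p => _ + _) ((i _ _ c.fst).add (i _ _ c.snd.fst)) (i _ _ c.snd.snd),
    integral_add (i _ _ c.fst) (i _ _ c.snd.fst), k _ _ hX.fst, k _ _ hX.snd.fst, k _ _ hX.snd.snd]
  ring

variable {ρ : P3 → ℝ} {H : ℝ}

lemma CMC.one (h : CMC ρ H) : ContDiff ℝ 1 ρ := h.smooth.of_le (by exact_mod_cast le_top)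

lemma CMC.null (h : CMC ρ H) : ∀ᵐ p, ρ p ≠ 0 := by
  have m : MeasurableSet {p | ρ p = 0} :=
    (isClosed_eq h.one.continuous continuous_const).measurableSet
  have a : ApproximatesLinearOn (fun p => ρ p • ((1, 0, 0) : P3)) (0 : P3 →L[ℝ] P3)
      {p | ρ p = 0} 0 := fun p hp q hq => by simp [show ρ p = 0 from hp, show ρ q = 0 from hq]
  have := a.norm_fderiv_sub_le volume m (fun p => (fderiv ℝ ρ p).smulRight ((1, 0, 0) : P3))
    fun p _ => ((h.one.differentiable one_ne_zero p).hasFDerivAt.smul_const _).hasFDerivWithinAt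
  filter_upwards [(ae_restrict_iff' m).1 this] with p hp h0
  simpa [h.regular p h0] using hp h0

lemma CMC.cmp0 (h : CMC ρ H) {X : P3 → P3} (hX : ContDiff ℝ 1 X)
    (h0 : ∀ p, ρ p = 0 → fderiv ℝ ρ p (X p) < 0) : ∫ p in {p | ρ p ≤ 0}, dv X p ≤ 0 := by
  have c := h.one.continuous
  obtain ⟨ε, ε0, hε⟩ := (h.compact.inter_right (isClosed_le continuous_const
    ((h.one.continuous_fderiv one_ne_zero).clm_apply hX.continuous))).exists_forall_le'
    c.neg.continuousOn (a := 0) fun p hp => neg_pos.2 (lt_of_le_of_ne hp.1 fun e =>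
      (h0 p e).not_ge hp.2)
  have l : Tendsto (fun t : ℝ => ∫ p in {p | ρ p ≤ 0}, Real.smoothTransition (t * -ρ p) * dv X p)
      atTop (𝓝 (∫ p in {p | ρ p ≤ 0}, dv X p)) := by
    refine tendsto_integral_filter_of_dominated_convergence (fun p => ‖dv X p‖)
      (.of_forall fun t => Continuous.aestronglyMeasurable (.mul (by fun_prop) (cont_dv hX)))
      (.of_forall fun t => .of_forall fun p => ?_)
      ((cont_dv hX).continuousOn.integrableOn_compact h.compact).norm ?_
    · rw [norm_mul, Real.norm_of_nonneg (Real.smoothTransition.nonneg _)]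
      exact mul_le_of_le_one_left (norm_nonneg _) (Real.smoothTransition.le_one _)
    · filter_upwards [ae_restrict_of_ae h.null, ae_restrict_mem h.compact.measurableSet] with p a b
      refine tendsto_const_nhds.congr' ?_
      filter_upwards [(tendsto_id.atTop_mul_const (neg_pos.2 (lt_of_le_of_ne b a))).eventually_ge_atTop
        1] with t ht
      rw [Real.smoothTransition.one_of_one_le (x := t * -ρ p) ht, one_mul]
  refine le_of_tendsto l ?_
  filter_upwards [eventually_gt_atTop 0, (tendsto_id.atTop_mul_const ε0).eventually_ge_atTop 1]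
    with t t0 ht
  have z : ∀ p, p ∉ {p | ρ p ≤ 0} → Real.smoothTransition (t * -ρ p) = 0 := fun p hp =>
    Real.smoothTransition.zero_of_nonpos (mul_nonpos_of_nonneg_of_nonpos t0.le
      (neg_nonpos.2 (not_le.1 hp).le))
  rw [setIntegral_eq_integral_of_forall_compl_eq_zero fun p hp => by rw [z p hp, zero_mul],
    int_parts (u := fun p => Real.smoothTransition (t * -ρ p)) (Real.smoothTransition.contDiff.comp
      (contDiff_const.mul h.one.neg)) (HasCompactSupport.intro h.compact z) hX, neg_nonpos]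
  refine integral_nonneg fun p => ?_
  have d := ((Real.smoothTransition.contDiff (n := 1)).differentiable one_ne_zero
    (t * -ρ p)).hasDerivAt.comp_hasFDerivAt p
      ((h.one.differentiable one_ne_zero p).hasFDerivAt.fun_neg.const_mul t)
  have d0 := Real.smoothTransition.monotone.deriv_nonneg (x := t * -ρ p)
  rw [show fderiv ℝ (fun p => Real.smoothTransition (t * -ρ p)) p = _ from d.fderiv]
  simp only [smul_apply, neg_apply, smul_eq_mul, Pi.zero_apply]
  rcases le_or_gt (fderiv ℝ ρ p (X p)) 0 with a | a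
  · exact mul_nonneg d0 (mul_nonneg t0.le (neg_nonneg.2 a))
  · refine (mul_eq_zero_of_left ?_ _).ge
    by_cases b : ρ p ≤ 0
    · exact IsLocalMax.deriv_eq_zero (.of_forall fun x => (Real.smoothTransition.le_one x).trans
        (Real.smoothTransition.one_of_one_le (le_trans ht
          (mul_le_mul_of_nonneg_left (hε p ⟨b, a.le⟩) t0.le))).ge)
    · exact IsLocalMin.deriv_eq_zero (.of_forall fun x =>
        (z p b).le.trans (Real.smoothTransition.nonneg x))

/-- the Riemannian inner product -/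
noncomputable def ip (p v w : P3) : ℝ :=
  Real.exp (2 * p.2.2) * v.1 * w.1 + Real.exp (-2 * p.2.2) * v.2.1 * w.2.1 + v.2.2 * w.2.2

lemma ip_grad (ρ : P3 → ℝ) (p v : P3) : fderiv ℝ ρ p v = ip p (grad ρ p) v := by
  have : Real.exp (2 * p.2.2) * Real.exp (-2 * p.2.2) = 1 := by simp [← Real.exp_add]
  refine (expand _ _ _ _).trans ?_
  simp only [ip, grad, smul_eq_mul]
  linear_combination (-v.1 * fderiv ℝ ρ p (1, 0, 0) - v.2.1 * fderiv ℝ ρ p (0, 1, 0)) * this

lemma CMC.grad_diff (h : CMC ρ H) : ContDiff ℝ ∞ (grad ρ) := by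
  have := h.smooth.fderiv_right (m := ∞) le_rfl
  unfold grad
  fun_prop

lemma CMC.pos (h : CMC ρ H) {p : P3} (hp : ρ p = 0) : 0 < nsq p (grad ρ p) := by
  refine (nsq_nonneg _ _).lt_of_ne fun e => h.regular p hp (ContinuousLinearMap.ext fun v => ?_)
  have a := mul_nonneg (Real.exp_pos (2 * p.2.2)).le (sq_nonneg (grad ρ p).1)
  have b := mul_nonneg (Real.exp_pos (-2 * p.2.2)).le (sq_nonneg (grad ρ p).2.1)
  have c := sq_nonneg (grad ρ p).2.2
  unfold nsq at e
  have a' := (mul_eq_zero.1 (le_antisymm (by linarith) a)).resolve_left (Real.exp_ne_zero _)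
  have b' := (mul_eq_zero.1 (le_antisymm (by linarith) b)).resolve_left (Real.exp_ne_zero _)
  have c' := le_antisymm (by linarith) c
  simp [ip_grad, ip, pow_eq_zero_iff two_ne_zero |>.1 a', pow_eq_zero_iff two_ne_zero |>.1 b',
    pow_eq_zero_iff two_ne_zero |>.1 c']

theorem CMC.normal (h : CMC ρ H) : ∃ ν : P3 → P3, ContDiff ℝ ∞ ν ∧ (∀ p, nsq p (ν p) ≤ 1) ∧
    (∀ p, ρ p = 0 → dv ν p = 2 * H ∧ ∀ᶠ q in 𝓝 p, nsq q (ν q) = 1) ∧
    ∀ X Y, ContDiff ℝ 1 X → ContDiff ℝ 1 Y → (∀ p, ρ p = 0 → ip p (ν p) (X p) ≤ ip p (ν p) (Y p)) →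
      ∫ p in {p | ρ p ≤ 0}, dv X p ≤ ∫ p in {p | ρ p ≤ 0}, dv Y p := by
  have g := h.grad_diff
  have g1 : ContDiff ℝ 1 (grad ρ) := g.of_le (by exact_mod_cast le_top)
  have n : ContDiff ℝ ∞ fun q => nsq q (grad ρ q) := by
    generalize grad ρ = G at g
    unfold nsq
    fun_prop
  obtain ⟨K, k1, k2, k3⟩ := exists_compact_between (h.compact.of_isClosed_subset
    (isClosed_eq h.one.continuous continuous_const) fun p (hp : ρ p = 0) => hp.le)
    (isOpen_lt continuous_const n.continuous) fun p hp => h.pos hp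
  obtain ⟨k, f1, f2, f3⟩ := k1.isClosed.isOpen_compl.exists_contDiff_support_eq (n := ⊤)
  have f4 := fun q => (f3 (mem_range_self q)).1
  have f5 : ∀ q, 0 < nsq q (grad ρ q) + k q := fun q => by
    by_cases hq : q ∈ K
    · exact add_pos_of_pos_of_nonneg (k3 hq) (f4 q)
    · exact add_pos_of_nonneg_of_pos (nsq_nonneg _ _) ((f4 q).lt_of_ne' (f1.ge hq))
  have f6 : ∀ q ∈ K, k q = 0 := fun q hq => not_not.1 fun e => f1.le e hq
  have f7 : ∀ p, ρ p = 0 → ∀ᶠ q in 𝓝 p, k q = 0 := fun p hp =>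
    mem_of_superset (mem_interior_iff_mem_nhds.1 (k2 hp)) f6
  have f8 : ∀ q, nsq q ((√(nsq q (grad ρ q) + k q))⁻¹ • grad ρ q) =
      nsq q (grad ρ q) / (nsq q (grad ρ q) + k q) := fun q => by
    rw [nsq_smul, inv_pow, Real.sq_sqrt (f5 q).le, div_eq_inv_mul]
  refine ⟨fun q => (√(nsq q (grad ρ q) + k q))⁻¹ • grad ρ q, (((n.add f2).sqrt
    fun q => (f5 q).ne').inv fun q => (Real.sqrt_pos.2 (f5 q)).ne').smul g,
    fun q => (f8 q).trans_le (div_le_one_of_le₀ (by linarith [f4 q]) (f5 q).le),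
    fun p hp => ⟨?_, (f7 p hp).mono fun q hq => ?_⟩, fun X Y hX hY hp => ?_⟩
  · rw [← h.mean p hp, dv, dv, EventuallyEq.fderiv_eq ((f7 p hp).mono fun q hq => ?_)]
    simp only [hq, add_zero]
  · have := f5 q
    rw [f8]
    rw [hq, add_zero] at this ⊢
    exact div_self this.ne'
  have hZ := (hX.const_smul (1 : ℝ)).add (hY.const_smul (-1 : ℝ))
  refine le_of_forall_pos_le_add fun ε hε => ?_
  set b := ∫ p in {p | ρ p ≤ 0}, dv (grad ρ) p
  have b0 : 0 < ε / (|b| + 1) := by positivity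
  have := h.cmp0 ((hZ.const_smul (1 : ℝ)).add (g1.const_smul (-(ε / (|b| + 1))))) fun p h0 => by
    have a1 := mul_pos b0 (h.pos h0)
    have a2 := mul_le_mul_of_nonneg_left (hp p h0) (Real.sqrt_pos.2 (f5 p)).le
    have a3 := mul_inv_cancel₀ (Real.sqrt_pos.2 (f5 p)).ne'
    rw [ip_grad]
    beta_reduce at a2
    generalize √(nsq p (grad ρ p) + k p) = m at a2 a3
    simp only [ip, nsq, Prod.fst_add, Prod.snd_add, Prod.smul_fst, Prod.smul_snd, smul_eq_mul]
      at a1 a2 ⊢
    linear_combination (norm := (simp only [ip]; ring_nf; rfl))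
      a1 + a2 + (ip p (grad ρ p) (Y p) - ip p (grad ρ p) (X p)) * a3
  rw [int_comb hZ g1 h.compact, int_comb hX hY h.compact] at this
  have a : ε / (|b| + 1) * b ≤ ε := by
    rw [div_mul_eq_mul_div, div_le_iff₀ (by positivity)]
    nlinarith [le_abs_self b]
  linarith

end Pool.Agent.Lib.MP_045627_gt
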