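import Mathlib

/-! Volume, perimeter, isoperimetric profile and mean curvature in the group Sol. -/

namespace Pool.Agent.Lib.MP_045627_gt

open MeasureTheory
open scoped ContDiff

/-- the coordinates (x, y, z); the Riemannian volume is Lebesgue measure -/
abbrev P3 := ℝ × ℝ × ℝ

/-- the squared length of the vector v at the point p -/
noncomputable def nsq (p v : P3) : ℝ :=
  Real.exp (2 * p.2.2) * v.1 ^ 2 + Real.exp (-2 * p.2.2) * v.2.1 ^ 2 + v.2.2 ^ 2

/-- the divergence of a vector field -/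
noncomputable def dv (X : P3 → P3) (p : P3) : ℝ :=
  (fderiv ℝ X p (1, 0, 0)).1 + (fderiv ℝ X p (0, 1, 0)).2.1 + (fderiv ℝ X p (0, 0, 1)).2.2

/-- the boundary area (perimeter in the sense of De Giorgi) -/
noncomputable def per (Ω : Set P3) : ENNReal :=
  ⨆ (X : P3 → P3) (_ : ContDiff ℝ 1 X ∧ HasCompactSupport X ∧ ∀ p, nsq p (X p) ≤ 1),
    ENNReal.ofReal (∫ p in Ω, dv X p)

/-- the isoperimetric profile -/
noncomputable def profile (V : ℝ) : ℝ :=
  (⨅ (Ω : Set P3) (_ : IsCompact Ω ∧ volume Ω = ENNReal.ofReal V), per Ω).toReal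

/-- the Riemannian gradient -/
noncomputable def grad (ρ : P3 → ℝ) (p : P3) : P3 :=
  (Real.exp (-2 * p.2.2) * fderiv ℝ ρ p (1, 0, 0), Real.exp (2 * p.2.2) * fderiv ℝ ρ p (0, 1, 0),
    fderiv ℝ ρ p (0, 0, 1))

/-- the compact region ρ ≤ 0 has smooth boundary ρ = 0 of constant mean curvature H -/
structure CMC (ρ : P3 → ℝ) (H : ℝ) : Prop where
  smooth : ContDiff ℝ ∞ ρ
  compact : IsCompact {p | ρ p ≤ 0}
  regular : ∀ p, ρ p = 0 → fderiv ℝ ρ p ≠ 0
  mean : ∀ p, ρ p = 0 → dv (fun q => (√(nsq q (grad ρ q)))⁻¹ • grad ρ q) p = 2 * H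

end Pool.Agent.Lib.MP_045627_gt
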