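import Pool.Agent.Lib.MP_045627_gt.Up

/-! Horizontal dilations and concavity of the profile. -/

namespace Pool.Agent.Lib.MP_045627_gt

open MeasureTheory Set Filter Metric
open scoped Topology

/-- horizontal dilation -/
noncomputable def dil (s : ℝ) : P3 →L[ℝ] P3 :=
  (s • ContinuousLinearMap.id ℝ ℝ).prodMap
    ((s • ContinuousLinearMap.id ℝ ℝ).prodMap (ContinuousLinearMap.id ℝ ℝ))

lemma dil_apply (s : ℝ) (p : P3) : dil s p = (s * p.1, s * p.2.1, p.2.2) := rfl

lemma dil_det (s : ℝ) : (dil s).det = s * s * 1 :=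
  det3 _ (by simp [dil_apply]) (by simp [dil_apply]) (by simp [dil_apply])

lemma volume_dil (s : ℝ) {Ω : Set P3} {V : ℝ} (h : volume Ω = ENNReal.ofReal V) :
    volume (dil s '' Ω) = ENNReal.ofReal (s ^ 2 * V) := by
  rw [Measure.addHaar_image_continuousLinearMap, ← ContinuousLinearMap.det, dil_det, h, mul_one,
    abs_mul_self, ENNReal.ofReal_mul (sq_nonneg s), sq]

/-- pull-back of vector fields -/
noncomputable def pull (s : ℝ) (X : P3 → P3) (p : P3) : P3 :=
  (s * (X (dil s p)).1, s * (X (dil s p)).2.1, s ^ 2 * (X (dil s p)).2.2)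

lemma pull_diff (s : ℝ) {X : P3 → P3} (h : ContDiff ℝ 1 X) : ContDiff ℝ 1 (pull s X) := by
  have := h.comp (dil s).contDiff
  exact (contDiff_const.mul this.fst).prodMk
    ((contDiff_const.mul this.snd.fst).prodMk (contDiff_const.mul this.snd.snd))

lemma int_pull {s : ℝ} (hs : 0 < s) {X : P3 → P3} (h : ContDiff ℝ 1 X) {Ω : Set P3}
    (hΩ : MeasurableSet Ω) : ∫ p in dil s '' Ω, dv X p = ∫ p in Ω, dv (pull s X) p := by
  rw [integral_image_eq_integral_abs_det_fderiv_smul volume hΩ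
    (fun p _ => (dil s).hasFDerivWithinAt) fun p _ q _ e => ?_]
  · refine integral_congr_ae (.of_forall fun p => ?_)
    have d := (h.differentiable one_ne_zero (dil s p)).hasFDerivAt.comp p (dil s).hasFDerivAt
    have e := ((d.fst.const_mul s).prodMk ((d.snd.fst.const_mul s).prodMk
      (d.snd.snd.const_mul (s ^ 2)))).fderiv
    simp only [dil_det, mul_one, abs_mul_self, dv]
    rw [show fderiv ℝ (pull s X) p = _ from e]
    simp only [ContinuousLinearMap.prod_apply, smul_apply,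
      ContinuousLinearMap.comp_apply, dil_apply]
    rw [expand _ (s * 1), expand _ (s * 0) (s * 1), expand _ (s * 0) (s * 0)]
    simp
    ring
  · simp only [dil_apply, Prod.mk.injEq, mul_right_inj' hs.ne'] at e
    exact Prod.ext e.1 (Prod.ext e.2.1 e.2.2)

lemma cont_dv {X : P3 → P3} (h : ContDiff ℝ 1 X) : Continuous (dv X) := by
  have := h.continuous_fderiv one_ne_zero
  unfold dv
  fun_prop

lemma int_comb {X Y : P3 → P3} (hX : ContDiff ℝ 1 X) (hY : ContDiff ℝ 1 Y) {Ω : Set P3}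
    (hΩ : IsCompact Ω) (a b : ℝ) : ∫ p in Ω, dv (fun q => a • X q + b • Y q) p =
      a * (∫ p in Ω, dv X p) + b * ∫ p in Ω, dv Y p := by
  rw [← integral_const_mul, ← integral_const_mul, ← integral_add
    (((cont_dv hX).continuousOn.integrableOn_compact hΩ).const_mul a)
    (((cont_dv hY).continuousOn.integrableOn_compact hΩ).const_mul b)]
  refine integral_congr_ae (.of_forall fun p => ?_)
  simp only [dv]
  rw [(((hX.differentiable one_ne_zero p).hasFDerivAt.fun_const_smul a).fun_add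
    ((hY.differentiable one_ne_zero p).hasFDerivAt.fun_const_smul b)).fderiv]
  simp
  ring

lemma le_per' {Ω : Set P3} (hΩ : IsCompact Ω) {X : P3 → P3} (h1 : ContDiff ℝ 1 X)
    (h3 : ∀ p, nsq p (X p) ≤ 1) : ENNReal.ofReal (∫ p in Ω, dv X p) ≤ per Ω := by
  obtain ⟨R, R0, hR⟩ := hΩ.isBounded.subset_ball_lt 0 0
  let θ : ContDiffBump (0 : P3) := ⟨R, R + 1, R0, by linarith⟩
  refine Eq.trans_le (congrArg _ (setIntegral_congr_fun hΩ.measurableSet fun p hp => ?_))
    (le_per (X := fun p => θ p • X p) (θ.contDiff.smul h1) θ.hasCompactSupport.smul_right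
      fun p => ?_)
  · have : (fun p => θ p • X p) =ᶠ[𝓝 p] X := by
      filter_upwards [θ.eventuallyEq_one_of_mem_ball (hR hp)] with q hq
      rw [hq, Pi.one_apply, one_smul]
    simp only [dv, this.fderiv_eq]
  · rw [nsq_smul]
    exact mul_le_one₀ (pow_le_one₀ θ.nonneg θ.le_one) (nsq_nonneg _ _) (h3 p)

lemma prof_le {Ω : Set P3} (h : IsCompact Ω) {V B : ℝ} (hV : volume Ω = ENNReal.ofReal V)
    (hB : 0 ≤ B) (hp : per Ω ≤ ENNReal.ofReal B) : profile V ≤ B :=
  ENNReal.toReal_le_of_le_ofReal hB ((iInf₂_le Ω ⟨h, hV⟩).trans hp)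

lemma prof_le' {Ω : Set P3} (h : IsCompact Ω) {V B s : ℝ} (hs : 0 < s)
    (hV : volume Ω = ENNReal.ofReal V) (hp : ∀ X, ContDiff ℝ 1 X → (∀ p, nsq p (X p) ≤ 1) →
      ∫ p in Ω, dv (pull s X) p ≤ B) : profile (s ^ 2 * V) ≤ B := by
  refine prof_le (h.image (dil s).continuous) (volume_dil s hV) ?_ (iSup₂_le fun X hX =>
    ENNReal.ofReal_le_ofReal ((int_pull hs hX.1 h.measurableSet).trans_le (hp X hX.1 hX.2.2)))
  have := hp (fun _ => 0) contDiff_const fun p => by simp [nsq]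
  rw [← int_pull hs contDiff_const h.measurableSet] at this
  simpa [dv] using this

/-- the constants of the upper bound -/
noncomputable def ca (L : ℝ) : ℝ := 1 / 2 + Real.exp (-L) / (2 * (gam (2 * L) - Real.exp (-L)))

/-- the constants of the upper bound -/
noncomputable def cq (L : ℝ) : ℝ := 8 * (gam (2 * L) + Real.exp (-L)) ^ 2

lemma gam2 : Tendsto (fun L => gam (2 * L)) atTop (𝓝 (√Real.pi / 2)) :=
  gam_lim.comp (tendsto_id.const_mul_atTop two_pos)

lemma ca_lim : Tendsto ca atTop (𝓝 (1 / 2)) := by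
  have := (Real.tendsto_exp_neg_atTop_nhds_zero.div ((gam2.sub
    Real.tendsto_exp_neg_atTop_nhds_zero).const_mul 2) (by simp [Real.pi_pos.le, Real.pi_ne_zero])).const_add (1 / 2)
  rwa [zero_div, add_zero] at this

lemma cq_lim : Tendsto cq atTop (𝓝 (2 * Real.pi)) := by
  have := ((gam2.add Real.tendsto_exp_neg_atTop_nhds_zero).pow 2).const_mul 8
  rwa [add_zero, div_pow, Real.sq_sqrt Real.pi_pos.le, show 8 * (Real.pi / 2 ^ 2) = 2 * Real.pi by
    ring] at this

lemma up' : ∀ᶠ L in atTop, ca L < 1 ∧ 1 < L ∧ ∀ V, 0 < V → ∃ Ω : Set P3, IsCompact Ω ∧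
    volume Ω = ENNReal.ofReal V ∧
      per Ω ≤ ENNReal.ofReal (V / (L - ca L) + cq L * Real.exp (2 * L)) := by
  filter_upwards [ca_lim.eventually_lt_const (show 1 / 2 < (1 : ℝ) by norm_num),
    eventually_gt_atTop 1, Real.tendsto_exp_neg_atTop_nhds_zero.eventually_lt gam2
      (by positivity)] with L h1 h2 h3
  exact ⟨h1, h2, fun V hV => up (by linarith) hV h3 (h1.trans h2)⟩

lemma le_prof {V c : ℝ} (hV : 0 < V) (h : ∀ Ω A, IsCompact Ω → volume Ω = ENNReal.ofReal V →
    profile V < A → per Ω ≤ ENNReal.ofReal A → c ≤ A) : c ≤ profile V := by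
  obtain ⟨L, -, -, hL⟩ := up'.exists
  obtain ⟨Ω, h1, h2, h3⟩ := hL V hV
  refine le_of_forall_gt_imp_ge_of_dense fun A hA => ?_
  have := (ENNReal.lt_ofReal_iff_toReal_lt (ne_top_of_le_ne_top ENNReal.ofReal_ne_top
    ((iInf₂_le Ω ⟨h1, h2⟩).trans h3))).2 hA
  simp only [iInf_lt_iff] at this
  obtain ⟨Ω', a, b⟩ := this
  exact h Ω' A a.1 a.2 hA b.le

theorem profile_concave : ConcaveOn ℝ (Ioi 0) profile := by
  refine concaveOn_iff_forall_pos.2 ⟨convex_Ioi 0, fun U hU W hW a b ha hb hab => ?_⟩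
  have hV : 0 < a * U + b * W := add_pos (mul_pos ha hU) (mul_pos hb hW)
  simp only [smul_eq_mul]
  refine le_prof hV fun Ω A h1 h2 h3 h4 => ?_
  obtain ⟨s, s0, hs⟩ : ∃ s, 0 < s ∧ s ^ 2 * (a * U + b * W) = U :=
    ⟨_, Real.sqrt_pos.2 (div_pos hU hV), by
      rw [Real.sq_sqrt (div_pos hU hV).le, div_mul_cancel₀ _ hV.ne']⟩
  obtain ⟨t, t0, ht⟩ : ∃ s, 0 < s ∧ s ^ 2 * (a * U + b * W) = W :=
    ⟨_, Real.sqrt_pos.2 (div_pos hW hV), by
      rw [Real.sq_sqrt (div_pos hW hV).le, div_mul_cancel₀ _ hV.ne']⟩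
  have e : a * s ^ 2 + b * t ^ 2 = 1 :=
    mul_right_cancel₀ hV.ne' (by linear_combination a * hs + b * ht)
  have k := prof_le' h1 t0 h2 (B := (A - a * profile U) / b) fun Y y1 y2 => by
    have k := prof_le' h1 s0 h2 (B := (A - b * ∫ p in Ω, dv (pull t Y) p) / a) fun X x1 x2 => by
      have k := (ENNReal.ofReal_le_ofReal_iff (ENNReal.toReal_nonneg.trans h3.le)).1
        ((le_per' h1 (X := fun q => a • pull s X q + b • pull t Y q)
        (((pull_diff s x1).const_smul a).add ((pull_diff t y1).const_smul b)) fun p => ?_).trans h4)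
      · rw [int_comb (pull_diff s x1) (pull_diff t y1) h1] at k
        rw [le_div_iff₀' ha]
        linarith
      have x := x2 (dil s p)
      have y := y2 (dil t p)
      simp only [nsq, pull, Prod.fst_add, Prod.snd_add, Prod.smul_mk, smul_eq_mul,
        show (dil s p).2.2 = p.2.2 from rfl, show (dil t p).2.2 = p.2.2 from rfl] at x y ⊢
      have j : ∀ u v : ℝ, (a * (s * u) + b * (t * v)) ^ 2 ≤ a * s ^ 2 * u ^ 2 + b * t ^ 2 * v ^ 2 :=
        fun u v => by
          have : b = 1 - a := by linarith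
          nlinarith [mul_nonneg (mul_pos ha hb).le (sq_nonneg (s * u - t * v))]
      have j' : ∀ u v : ℝ, (a * (s ^ 2 * u) + b * (t ^ 2 * v)) ^ 2 ≤
          a * s ^ 2 * u ^ 2 + b * t ^ 2 * v ^ 2 := fun u v => by
        have := mul_nonneg (show 0 ≤ a * s ^ 2 * (b * t ^ 2) by positivity) (sq_nonneg (u - v))
        linear_combination this + (a * s ^ 2 * u ^ 2 + b * t ^ 2 * v ^ 2) * e
      linear_combination Real.exp (2 * p.2.2) * j (X (dil s p)).1 (Y (dil t p)).1 +
        Real.exp (-2 * p.2.2) * j (X (dil s p)).2.1 (Y (dil t p)).2.1 +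
        j' (X (dil s p)).2.2 (Y (dil t p)).2.2 + a * s ^ 2 * x + b * t ^ 2 * y + e
    rw [hs, le_div_iff₀' ha] at k
    rw [le_div_iff₀' hb]
    linarith
  rw [ht, le_div_iff₀' hb] at k
  linarith

end Pool.Agent.Lib.MP_045627_gt
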