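import Pool.Agent.Lib.MP_045627_gt.Top

/-! The lower bound for the perimeter. -/

namespace Pool.Agent.Lib.MP_045627_gt

open MeasureTheory Set Filter Metric
open scoped Topology

lemma opt {V A l κ p q : ℝ} (hA : 0 < A) (hκ : 0 < κ) (hp : 0 ≤ p) (hq : 0 ≤ q)
    (h : A ≤ 8 * κ ^ 2 * Real.exp (2 * l + 2))
    (H : ∀ L, l ≤ L → V + 2 * p + 2 * q ≤ L * A + p * q * (Real.exp (-2 * L - 1) / κ ^ 2)) :
    V ≤ l * A := by
  obtain ⟨s, s0, hs⟩ : ∃ s, 0 ≤ s ∧ p * q = (κ * s) ^ 2 := ⟨√(p * q) / κ, by positivity, by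
    rw [mul_div_cancel₀ _ hκ.ne', Real.sq_sqrt (mul_nonneg hp hq)]⟩
  have h1 : 2 * (κ * s) ≤ p + q :=
    (pow_le_pow_iff_left₀ (by positivity) (by positivity) two_ne_zero).1
      (by nlinarith [sq_nonneg (p - q)])
  have H' : ∀ L, l ≤ L → V + 4 * (κ * s) ≤ L * A + s ^ 2 * Real.exp (-2 * L - 1) := fun L hL => by
    have := H L hL
    rw [hs, show (κ * s) ^ 2 * (Real.exp (-2 * L - 1) / κ ^ 2) = s ^ 2 * Real.exp (-2 * L - 1) by
      field_simp] at this
    linarith
  rcases le_or_gt (s ^ 2 * Real.exp (-2 * l - 1)) (A / 2) with h2 | h2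
  · have h3 : s * Real.exp (-2 * l - 1) ≤ 4 * κ := by
      refine (pow_le_pow_iff_left₀ (by positivity) (by positivity) two_ne_zero).1 ?_
      have e1 : Real.exp (2 * l + 2) * Real.exp (-2 * l - 1) = Real.exp 1 := by
        rw [← Real.exp_add]; congr 1; ring
      have e2 := Real.exp_pos (-2 * l - 1)
      have e3 := mul_le_mul_of_nonneg_right (h2.trans (by linarith : A / 2 ≤
        4 * κ ^ 2 * Real.exp (2 * l + 2))) e2.le
      rw [mul_assoc (4 * κ ^ 2), e1] at e3
      nlinarith [Real.exp_one_lt_d9, sq_nonneg κ]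
    nlinarith [H' l le_rfl, mul_le_mul_of_nonneg_left h3 s0]
  · have s1 : 0 < s ^ 2 := pos_of_mul_pos_left ((half_pos hA).trans h2) (Real.exp_pos _).le
    obtain ⟨L, hL⟩ : ∃ L, Real.exp (-2 * L - 1) = A / 2 / s ^ 2 :=
      ⟨-(Real.log (A / 2 / s ^ 2) + 1) / 2, by
        rw [← Real.exp_log (by positivity : 0 < A / 2 / s ^ 2), Real.log_exp]; congr 1; ring⟩
    have h3 : l ≤ L := by
      have : Real.exp (-2 * L - 1) < Real.exp (-2 * l - 1) := by
        rw [hL, div_lt_iff₀ s1]; linarith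
      linarith [Real.exp_lt_exp.1 this]
    have h4 := H' L h3
    rw [hL, mul_div_cancel₀ _ s1.ne'] at h4
    have h5 : A * Real.exp (L - l - 1 / 2) ≤ 4 * (κ * s) := by
      refine (pow_le_pow_iff_left₀ (by positivity) (by positivity) two_ne_zero).1 ?_
      have e1 : Real.exp (L - l - 1 / 2) ^ 2 * Real.exp (2 * l + 2) * Real.exp (-2 * L - 1) = 1 := by
        rw [← Real.exp_nat_mul, ← Real.exp_add, ← Real.exp_add, Real.exp_eq_one_iff]
        push_cast; ring
      rw [hL, ← mul_div_assoc, div_eq_one_iff_eq s1.ne'] at e1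
      have e2 : Real.exp (L - l - 1 / 2) ^ 2 * Real.exp (2 * l + 2) * A = 2 * s ^ 2 := by
        linarith
      have e3 := mul_le_mul_of_nonneg_left h
        (by positivity : 0 ≤ A * Real.exp (L - l - 1 / 2) ^ 2)
      nlinarith
    nlinarith [mul_le_mul_of_nonneg_left (Real.add_one_le_exp (L - l - 1 / 2)) hA.le]

lemma vol_line {κ L u v : ℝ} (hκ : 0 < κ) :
    volume {z | Real.exp (z + L) * κ ≤ u ∧ Real.exp (-z + L) * κ ≤ v} ≤
      ENNReal.ofReal (u * v * (Real.exp (-2 * L - 1) / κ ^ 2)) := by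
  rcases eq_empty_or_nonempty {z | Real.exp (z + L) * κ ≤ u ∧ Real.exp (-z + L) * κ ≤ v} with
    h | ⟨z, h1, h2⟩
  · simp [h]
  have hu : 0 < u := lt_of_lt_of_le (by positivity) h1
  have hv : 0 < v := lt_of_lt_of_le (by positivity) h2
  refine (measure_mono (t := Icc (L - Real.log (v / κ)) (Real.log (u / κ) - L)) fun z hz => ?_).trans
    (Real.volume_Icc.trans_le (ENNReal.ofReal_le_ofReal ?_))
  · have a1 := (Real.le_log_iff_exp_le (div_pos hu hκ)).2 ((le_div_iff₀ hκ).2 hz.1)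
    have a2 := (Real.le_log_iff_exp_le (div_pos hv hκ)).2 ((le_div_iff₀ hκ).2 hz.2)
    constructor <;> linarith
  · have := Real.add_one_le_exp (Real.log (u / κ) + Real.log (v / κ) + (-2 * L - 1))
    rw [Real.exp_add, Real.exp_add, Real.exp_log (div_pos hu hκ), Real.exp_log (div_pos hv hκ)]
      at this
    refine le_trans (by linarith) (this.trans_eq (by field_simp))

lemma vol_cost {κ L : ℝ} (hκ : 0 < κ) {g g' : ℝ → ℝ} (i : Integrable g) (i' : Integrable g')
    (h : ∀ x, 0 ≤ g x) (h' : ∀ x, 0 ≤ g' x) {C : Set P3} (hC : MeasurableSet C)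
    (e : C = {p | Real.exp (p.2.2 + L) * κ ≤ g p.1 ∧ Real.exp (-p.2.2 + L) * κ ≤ g' p.2.1}) :
    volume C ≤ ENNReal.ofReal ((∫ x, g x) * (∫ x, g' x) * (Real.exp (-2 * L - 1) / κ ^ 2)) := by
  have i0 : 0 ≤ ∫ x, g' x := integral_nonneg h'
  rw [Measure.volume_eq_prod, Measure.prod_apply hC, mul_assoc, ← integral_mul_const,
    ofReal_integral_eq_lintegral_ofReal (i.mul_const _)
      (.of_forall fun x => mul_nonneg (h x) (by positivity))]
  refine lintegral_mono fun x => ?_
  rw [Measure.volume_eq_prod, Measure.prod_apply (measurable_prodMk_left hC), ← mul_assoc,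
    ← integral_const_mul, ← integral_mul_const, ofReal_integral_eq_lintegral_ofReal
      ((i'.const_mul _).mul_const _)
      (.of_forall fun y => mul_nonneg (mul_nonneg (h x) (h' y)) (by positivity))]
  exact lintegral_mono fun y => e ▸ vol_line hκ

lemma gam_nonneg {D : ℝ} (h : 0 ≤ D) : 0 ≤ gam D :=
  intervalIntegral.integral_nonneg h fun _ _ => by positivity

theorem low {Ω : Set P3} (hΩ : IsCompact Ω) {A l D : ℝ} (hD : 0 < D) (hl : 3 * D ≤ l) (hA : 0 < A)
    (hp : per Ω ≤ ENNReal.ofReal A) (h : A ≤ 16 * (l - D) * gam D ^ 2 * Real.exp (2 * l + 2)) :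
    volume.real Ω ≤ l * A := by
  obtain ⟨R, R0, hR⟩ := hΩ.isBounded.subset_closedBall_lt 0 0
  let ι := rf.trans sw
  have ι1 : ∀ p, ι p = (p.2.1, p.1, -p.2.2) := fun _ => rfl
  have mι : MeasurePreserving ι := mp_sw.comp mp_rf
  have m := hΩ.measurableSet
  have m' : MeasurableSet (ι ⁻¹' Ω) := ι.continuous.measurable m
  have ι2 : ι ⁻¹' (ι ⁻¹' Ω) = Ω := by ext p; simp [ι1]
  have hR' : ι ⁻¹' Ω ⊆ closedBall 0 R := fun p hp => by
    have := hR hp
    simp only [mem_closedBall_zero_iff, ι1, Prod.norm_def, max_le_iff, norm_neg] at this ⊢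
    tauto
  have hc : 0 ≤ 2 * (l - D) := by linarith
  obtain ⟨g, U, k, g1, g2, g3, w, k0, k1, H⟩ := top m hR hc hD.le
  obtain ⟨g', U', k', g1', g2', g3', w', k0', k1', H'⟩ := top m' hR' hc hD.le
  have e : 16 * (l - D) * gam D ^ 2 = 8 * (√(2 * (l - D)) * gam D) ^ 2 := by
    rw [mul_pow, Real.sq_sqrt hc]; ring
  rw [e] at h
  have hκ : 0 < √(2 * (l - D)) * gam D :=
    lt_of_le_of_ne (mul_nonneg (Real.sqrt_nonneg _) (gam_nonneg hD.le)) fun h0 => by
      rw [← h0] at h; linarith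
  refine opt hA hκ (integral_nonneg (μ := volume) g3) (integral_nonneg (μ := volume) g3') h
    fun L hL => ?_
  obtain ⟨a, j, v, j0, a0, a1, a2⟩ := H L (by linarith)
  obtain ⟨a', j', v', j0', a0', a1', a2'⟩ := H' L (by linarith)
  have w1 := w'.comp (e' := (1, 0, 0)) ι mι (by simp [ι1])
  have v1 := (v'.comp (e' := -(0, 0, 1)) ι mι (by simp [ι1])).neg
  have main := per_ge hΩ R0.le hR w1 w (v.add v1) (fun p => add_nonneg (add_nonneg (k0' _) (k0 _))
    (add_nonneg (j0 _) (j0' _))) (l := L) (by linarith) (fun p hp => by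
      have b0 := mem_ball_zero_iff.1 hp
      simp only [Prod.norm_def, max_lt_iff, Real.norm_eq_abs] at b0
      have b1 := a1 p b0.2.1.le
      have b2 := a1' (ι p) b0.1.le
      obtain ⟨b3, b4⟩ := a0 p
      obtain ⟨b5, b6⟩ := a0' (ι p)
      simp only [ι1, neg_mul_neg] at b2 b5 b6
      simp only [nsq, ι1, neg_neg]
      rcases b1 with b1 | b1 <;> rcases b2 with b2 | b2
      · rw [b1, b2]; nlinarith
      · rw [b1]; nlinarith [b2.1, b2.2]
      · rw [b2]; nlinarith [b1.1, b1.2]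
      · nlinarith [b1.1, b1.2, b2.1, b2.2]) hA.le hp
  have i := fun (f : P3 → ℝ) (hf : LocallyIntegrable f) => hf.integrableOn_isCompact hΩ
  rw [integral_add (f := fun p => k' (ι p) + k p) ((i _ w1.lh).add (i _ w.lh)) (i _ (v.add v1).lh),
    integral_add (i _ w1.lh) (i _ w.lh), k1] at main
  have k2 := mι.setIntegral_preimage_emb ι.toHomeomorph.measurableEmbedding k' (ι ⁻¹' Ω)
  rw [ι2, k1'] at k2
  set C : Set P3 := {p | Real.exp (p.2.2 + L) * (√(2 * (l - D)) * gam D) ≤ g p.1 ∧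
    Real.exp (-p.2.2 + L) * (√(2 * (l - D)) * gam D) ≤ g' p.2.1} with hC
  have mC : MeasurableSet C := by
    rw [hC, ofPred_and]
    exact (measurableSet_le (by fun_prop) (by fun_prop)).inter
      (measurableSet_le (by fun_prop) (by fun_prop))
  have c1 := vol_cost hκ g2 g2' g3 g3' mC hC
  have c2 := ENNReal.toReal_le_of_le_ofReal (mul_nonneg (mul_nonneg (integral_nonneg g3)
    (integral_nonneg g3')) (by positivity)) ((Measure.restrict_le_self (s := Ω) C).trans c1)
  have : IsFiniteMeasure (volume.restrict Ω) := isFiniteMeasure_restrict.2 hΩ.measure_lt_top.ne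
  have i1 : Integrable (C.indicator (1 : P3 → ℝ)) (volume.restrict Ω) :=
    (integrable_const 1).indicator mC
  have c3 := integral_mono_ae (integrable_const (1 : ℝ)) ((i _ (v.add v1).lh).add i1) (by
    filter_upwards [ae_restrict_of_ae a2, ae_restrict_of_ae (mι.quasiMeasurePreserving.ae a2'),
      ae_restrict_mem m] with p b1 b2 b3
    have b4 : 0 ≤ C.indicator (1 : P3 → ℝ) p := indicator_nonneg (fun _ _ => zero_le_one) p
    simp only [Pi.add_apply]
    rcases b1 b3 with b1 | b1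
    · linarith [j0' (ι p)]
    rcases b2 (ι2.ge b3) with b2 | b2
    · linarith [j0 p]
    rw [indicator_of_mem (show p ∈ C from ⟨b1, b2⟩), Pi.one_apply]
    linarith [j0 p, j0' (ι p)])
  rw [integral_add' (i _ (v.add v1).lh) i1, integral_indicator_one mC, setIntegral_const,
    smul_eq_mul, mul_one] at c3
  linarith [show (volume.restrict Ω).real C = ((volume.restrict Ω) C).toReal from rfl]

end Pool.Agent.Lib.MP_045627_gt
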