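import Pool.Agent.Lib.MP_045627_gt.Defs

/-! Weak derivatives and calibrations by measurable vector fields. -/

namespace Pool.Agent.Lib.MP_045627_gt

open MeasureTheory Set Filter Metric ContinuousLinearMap
open scoped ContDiff Topology Convolution

instance haar2 : (volume : Measure (ℝ × ℝ)).IsAddHaarMeasure :=
  Measure.prod.instIsAddHaarMeasure _ _

instance haar3 : (volume : Measure P3).IsAddHaarMeasure := Measure.prod.instIsAddHaarMeasure _ _

/-- h is the weak derivative of f in the direction e -/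
structure WD (e : P3) (f h : P3 → ℝ) : Prop where
  lf : LocallyIntegrable f
  lh : LocallyIntegrable h
  eq : ∀ φ : P3 → ℝ, ContDiff ℝ 1 φ → HasCompactSupport φ →
    ∫ p, fderiv ℝ φ p e * f p = -∫ p, φ p * h p

lemma int_mul {f φ : P3 → ℝ} (hf : LocallyIntegrable f) (h1 : Continuous φ)
    (h2 : HasCompactSupport φ) : Integrable fun p => φ p * f p :=
  hf.integrable_smul_left_of_hasCompactSupport h1 h2

lemma cont_d {φ : P3 → ℝ} (h1 : ContDiff ℝ 1 φ) (e : P3) : Continuous fun p => fderiv ℝ φ p e :=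
  (h1.continuous_fderiv one_ne_zero).clm_apply continuous_const

lemma WD.add {e : P3} {f h f' h' : P3 → ℝ} (w : WD e f h) (w' : WD e f' h') :
    WD e (fun p => f p + f' p) fun p => h p + h' p := by
  refine ⟨w.lf.add w'.lf, w.lh.add w'.lh, fun φ h1 h2 => ?_⟩
  simp only [mul_add]
  rw [integral_add (int_mul w.lf (cont_d h1 e) (h2.fderiv_apply ℝ e))
    (int_mul w'.lf (cont_d h1 e) (h2.fderiv_apply ℝ e)), integral_add
    (int_mul w.lh h1.continuous h2) (int_mul w'.lh h1.continuous h2), w.eq φ h1 h2, w'.eq φ h1 h2,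
    neg_add]

lemma WD.neg {e : P3} {f h : P3 → ℝ} (w : WD (-e) f h) : WD e (fun p => -f p) h :=
  ⟨w.lf.neg, w.lh, fun φ h1 h2 => by simpa using w.eq φ h1 h2⟩

lemma WD.comp {e e' : P3} {f h : P3 → ℝ} (w : WD e f h) (σ : P3 ≃L[ℝ] P3)
    (hσ : MeasurePreserving σ) (he : σ e' = e) : WD e' (fun p => f (σ p)) fun p => h (σ p) := by
  have me := σ.toHomeomorph.measurableEmbedding
  have l : ∀ g : P3 → ℝ, LocallyIntegrable g → LocallyIntegrable fun p => g (σ p) := fun g hg =>
    locallyIntegrable_iff.2 fun K hK => by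
      have := (hσ.integrableOn_comp_preimage me (s := σ '' K)).2
        (hg.integrableOn_isCompact (hK.image σ.continuous))
      rwa [preimage_image_eq _ σ.injective] at this
  refine ⟨l f w.lf, l h w.lh, fun φ h1 h2 => ?_⟩
  have := w.eq (φ ∘ σ.symm) (h1.comp σ.symm.contDiff) (h2.comp_homeomorph σ.symm.toHomeomorph)
  rw [← hσ.integral_comp me, ← hσ.integral_comp me (fun p => (φ ∘ σ.symm) p * h p)] at this
  simpa [σ.symm.comp_right_fderiv, ← he] using this

/-- primitives along the first coordinate -/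
noncomputable def prim (a b : ℝ) (h : P3 → ℝ) (p : P3) : ℝ :=
  ∫ u, (if u ≤ p.1 then a else -b) * h (u, p.2)

lemma prim_one {a b : ℝ} {h ψ : ℝ → ℝ} (hh : Integrable h) (h1 : ContDiff ℝ 1 ψ)
    (h2 : HasCompactSupport ψ) :
    ∫ s, deriv ψ s * ∫ u, (if u ≤ s then a else -b) * h u = -∫ u, ψ u * ((a + b) * h u) := by
  have h3 : Integrable (deriv ψ) := (h1.continuous_deriv le_rfl).integrable_of_hasCompactSupport
    h2.deriv
  have h4 : Integrable (fun q : ℝ × ℝ => (if q.2 ≤ q.1 then a else -b) * (deriv ψ q.1 * h q.2))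
      (volume.prod volume) := (h3.mul_prod hh).bdd_mul (c := |a| + |b|)
    (Measurable.ite (measurableSet_le measurable_snd measurable_fst) measurable_const
      measurable_const).aestronglyMeasurable (Eventually.of_forall fun q => by
        split_ifs <;> simp)
  have h5 := integral_integral_swap (f := fun s u =>
    (if u ≤ s then a else -b) * (deriv ψ s * h u)) h4
  simp only [← integral_const_mul, ← integral_neg]
  refine Eq.trans (by simp only [mul_left_comm]) (h5.trans (integral_congr_ae (.of_forall fun u => ?_)))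
  have h6 : Integrable fun s => (if u ≤ s then a else -b) * (deriv ψ s * h u) :=
    (h3.mul_const _).bdd_mul (c := |a| + |b|) (Measurable.ite measurableSet_Ici measurable_const
      measurable_const).aestronglyMeasurable (Eventually.of_forall fun q => by
        split_ifs <;> simp)
  simp only
  rw [← integral_add_compl (measurableSet_Ici (a := u)) h6, compl_Ici,
    setIntegral_congr_fun (g := fun s => a * h u * deriv ψ s) measurableSet_Ici
      (fun s hs => by simp only [if_pos (show u ≤ s from hs)]; ring),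
    setIntegral_congr_fun (g := fun s => -b * h u * deriv ψ s) measurableSet_Iio
      (fun s hs => by simp only [if_neg (not_le.2 (show s < u from hs))]; ring),
    integral_const_mul, integral_const_mul, integral_Ici_eq_integral_Ioi,
    ← integral_Iic_eq_integral_Iio, h2.integral_Ioi_deriv_eq h1, h2.integral_Iic_deriv_eq h1]
  ring

lemma measurable_prim {a b : ℝ} {h : P3 → ℝ} (hm : Measurable h) : Measurable (prim a b h) :=
  (StronglyMeasurable.integral_prod_right' (f := fun q : P3 × ℝ =>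
    (if q.2 ≤ q.1.1 then a else -b) * h (q.2, q.1.2)) (Measurable.stronglyMeasurable
      ((Measurable.ite (measurableSet_le (by fun_prop) (by fun_prop)) measurable_const
        measurable_const).mul (by fun_prop)))).measurable

lemma loc_of_bdd {f : P3 → ℝ} (hm : Measurable f) {C : ℝ} (h : ∀ p, |f p| ≤ C) :
    LocallyIntegrable f :=
  (memLp_top_of_bound hm.aestronglyMeasurable C (.of_forall h)).locallyIntegrable le_top

lemma wd_prim {a b C : ℝ} {h : P3 → ℝ} (hm : Measurable h) (hh : Integrable h)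
    (hb : ∀ p, |prim a b h p| ≤ C) : WD (1, 0, 0) (prim a b h) fun p => (a + b) * h p := by
  have l1 := loc_of_bdd (measurable_prim hm) hb
  have l2 := (hh.const_mul (a + b)).locallyIntegrable
  refine ⟨l1, l2, fun φ h1 h2 => ?_⟩
  have i1 := int_mul l1 (cont_d h1 (1, 0, 0)) (h2.fderiv_apply ℝ _)
  have i2 := int_mul l2 h1.continuous h2
  rw [Measure.volume_eq_prod] at i1 i2 hh ⊢
  rw [integral_prod_symm _ i1, integral_prod_symm _ i2, ← integral_neg]
  refine integral_congr_ae (hh.prod_left_ae.mono fun w hw => ?_)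
  have c1 : ContDiff ℝ 1 fun s : ℝ => φ (s, w) := h1.comp (by fun_prop)
  refine Eq.trans (integral_congr_ae (.of_forall fun s => ?_)) (prim_one hw c1
    (h2.comp_isClosedEmbedding (Isometry.isClosedEmbedding
      (Isometry.of_dist_eq fun a b => by simp))))
  have := ((h1.differentiable one_ne_zero (s, w)).hasFDerivAt.comp_hasDerivAt s
    ((hasDerivAt_id s).prodMk (hasDerivAt_const s w))).deriv
  exact congrArg (· * _) this.symm

lemma WD.conv {e : P3} {f h : P3 → ℝ} (w : WD e f h) {ρ : P3 → ℝ} (h1 : ContDiff ℝ 1 ρ)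
    (h2 : HasCompactSupport ρ) (p : P3) :
    fderiv ℝ (ρ ⋆[lsmul ℝ ℝ, volume] f) p e = (ρ ⋆[lsmul ℝ ℝ, volume] h) p := by
  have c1 : ContDiff ℝ 1 fun q => ρ (p - q) := h1.comp (by fun_prop)
  have c2 : HasCompactSupport fun q => ρ (p - q) := h2.comp_homeomorph (Homeomorph.subLeft p)
  have h3 := w.eq _ c1 c2
  have h4 : ∀ q, fderiv ℝ (fun q => ρ (p - q)) q = -fderiv ℝ ρ (p - q) := fun q =>
    ((h1.differentiable one_ne_zero (p - q)).hasFDerivAt.comp q
      ((hasFDerivAt_id q).const_sub p)).fderiv.trans (by simp)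
  have h5 : Integrable fun q => (lsmul ℝ ℝ : ℝ →L[ℝ] ℝ →L[ℝ] ℝ).precompL P3
      (fderiv ℝ ρ (p - q)) (f q) :=
    (w.lf.integrable_smul_right_of_hasCompactSupport
      (g := fun q => fderiv ℝ ρ (p - q)) ((h1.continuous_fderiv one_ne_zero).comp (by fun_prop))
      ((h2.fderiv ℝ).comp_homeomorph (Homeomorph.subLeft p))).congr (.of_forall fun q =>
        ContinuousLinearMap.ext fun v => by simp [mul_comm])
  rw [(h2.hasFDerivAt_convolution_left _ h1 w.lf p).fderiv, convolution_eq_swap,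
    convolution_lsmul_swap, ContinuousLinearMap.integral_apply h5]
  simpa [h4, integral_neg] using h3

lemma nsq_shift (p t v : P3) {r : ℝ} (h : ‖t‖ ≤ r) :
    nsq p v ≤ Real.exp r ^ 2 * nsq (p - t) v := by
  have h1 := abs_le.1 ((norm_snd_le t.2).trans ((norm_snd_le t).trans h))
  have h2 : Real.exp (2 * p.2.2) ≤ Real.exp r ^ 2 * Real.exp (2 * (p - t).2.2) := by
    rw [← Real.exp_nat_mul, ← Real.exp_add]
    exact Real.exp_le_exp.2 (by simp; linarith [h1.2])
  have h3 : Real.exp (-2 * p.2.2) ≤ Real.exp r ^ 2 * Real.exp (-2 * (p - t).2.2) := by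
    rw [← Real.exp_nat_mul, ← Real.exp_add]
    exact Real.exp_le_exp.2 (by simp; linarith [h1.1])
  have h4 : 1 ≤ Real.exp r ^ 2 := one_le_pow₀ (Real.one_le_exp ((norm_nonneg t).trans h))
  unfold nsq
  nlinarith [mul_le_mul_of_nonneg_right h2 (sq_nonneg v.1),
    mul_le_mul_of_nonneg_right h3 (sq_nonneg v.2.1), mul_le_mul_of_nonneg_right h4 (sq_nonneg v.2.2)]

lemma nsq_conv {f1 f2 f3 ρ : P3 → ℝ} (l1 : LocallyIntegrable f1) (l2 : LocallyIntegrable f2)
    (l3 : LocallyIntegrable f3) (h1 : Continuous ρ) (h2 : HasCompactSupport ρ) (h3 : ∀ t, 0 ≤ ρ t)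
    (h4 : ∫ t, ρ t = 1) {p : P3} {c : ℝ} (h : ∀ q, ρ (p - q) ≠ 0 → nsq p (f1 q, f2 q, f3 q) ≤ c) :
    nsq p ((ρ ⋆[lsmul ℝ ℝ, volume] f1) p, (ρ ⋆[lsmul ℝ ℝ, volume] f2) p,
      (ρ ⋆[lsmul ℝ ℝ, volume] f3) p) ≤ c := by
  have c1 : Continuous fun q => ρ (p - q) := by fun_prop
  have c2 : HasCompactSupport fun q => ρ (p - q) := h2.comp_homeomorph (Homeomorph.subLeft p)
  simp only [convolution_lsmul_swap, smul_eq_mul]
  have i1 := int_mul l1 c1 c2
  have i2 := int_mul l2 c1 c2
  have i3 := int_mul l3 c1 c2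
  set y1 := ∫ q, ρ (p - q) * f1 q
  set y2 := ∫ q, ρ (p - q) * f2 q
  set y3 := ∫ q, ρ (p - q) * f3 q
  set N := nsq p (y1, y2, y3) with hN
  have e1 := Real.exp_pos (2 * p.2.2)
  have e2 := Real.exp_pos (-2 * p.2.2)
  have j1 := i1.const_mul (Real.exp (2 * p.2.2) * y1)
  have j2 := i2.const_mul (Real.exp (-2 * p.2.2) * y2)
  have h5 := integral_mono ((j1.add j2).add (i3.const_mul y3))
    ((c1.integrable_of_hasCompactSupport c2).mul_const ((N + c) / 2)) fun q => by
      by_cases h0 : ρ (p - q) = 0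
      · simp [h0]
      have a1 := h q h0
      have a2 : Real.exp (2 * p.2.2) * y1 * f1 q + Real.exp (-2 * p.2.2) * y2 * f2 q + y3 * f3 q ≤
          (N + c) / 2 := by
        simp only [hN, nsq] at a1 ⊢
        nlinarith [mul_nonneg e1.le (sq_nonneg (y1 - f1 q)), mul_nonneg e2.le (sq_nonneg (y2 - f2 q)),
          sq_nonneg (y3 - f3 q)]
      have := mul_le_mul_of_nonneg_left a2 (h3 (p - q))
      simp only [Pi.add_apply]
      linarith
  rw [integral_add' (j1.add j2) (i3.const_mul y3), integral_add' j1 j2, integral_const_mul,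
    integral_const_mul, integral_const_mul, integral_mul_const, integral_sub_left_eq_self, h4] at h5
  have : N = Real.exp (2 * p.2.2) * y1 * y1 + Real.exp (-2 * p.2.2) * y2 * y2 + y3 * y3 := by
    simp only [hN, nsq]; ring
  linarith

lemma nsq_smul (p v : P3) (c : ℝ) : nsq p (c • v) = c ^ 2 * nsq p v := by
  simp only [nsq, Prod.smul_fst, Prod.smul_snd, smul_eq_mul]; ring

lemma nsq_nonneg (p v : P3) : 0 ≤ nsq p v := by unfold nsq; positivity

lemma le_per {Ω : Set P3} {X : P3 → P3} (h1 : ContDiff ℝ 1 X) (h2 : HasCompactSupport X)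
    (h3 : ∀ p, nsq p (X p) ≤ 1) : ENNReal.ofReal (∫ p in Ω, dv X p) ≤ per Ω :=
  le_iSup₂_of_le (f := fun X (_ : ContDiff ℝ 1 X ∧ HasCompactSupport X ∧ ∀ p, nsq p (X p) ≤ 1) =>
    ENNReal.ofReal (∫ p in Ω, dv X p)) X ⟨h1, h2, h3⟩ le_rfl

lemma dv_mk {f1 f2 f3 : P3 → ℝ} {p : P3} (h1 : DifferentiableAt ℝ f1 p)
    (h2 : DifferentiableAt ℝ f2 p) (h3 : DifferentiableAt ℝ f3 p) (c : ℝ) :
    dv (fun q => c • (f1 q, f2 q, f3 q)) p =
      c * (fderiv ℝ f1 p (1, 0, 0) + fderiv ℝ f2 p (0, 1, 0) + fderiv ℝ f3 p (0, 0, 1)) := by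
  rw [dv, ((h1.hasFDerivAt.prodMk (h2.hasFDerivAt.prodMk h3.hasFDerivAt)).fun_const_smul c).fderiv]
  simp
  ring

theorem per_ge {Ω : Set P3} (hΩ : IsCompact Ω) {R : ℝ} (h0 : 0 ≤ R) (hR : Ω ⊆ closedBall 0 R)
    {f1 f2 f3 h1 h2 h3 : P3 → ℝ} (w1 : WD (1, 0, 0) f1 h1) (w2 : WD (0, 1, 0) f2 h2)
    (w3 : WD (0, 0, 1) f3 h3) (pos : ∀ p, 0 ≤ h1 p + h2 p + h3 p) {l : ℝ} (hl : 0 < l)
    (hb : ∀ p ∈ ball (0 : P3) (R + 1), nsq p (f1 p, f2 p, f3 p) ≤ l ^ 2) {A : ℝ} (hA : 0 ≤ A)
    (hp : per Ω ≤ ENNReal.ofReal A) : ∫ p in Ω, (h1 p + h2 p + h3 p) ≤ l * A := by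
  have lh := (w1.lh.add w2.lh).add w3.lh
  set h : P3 → ℝ := h1 + h2 + h3
  let r : ℕ → ℝ := fun n => 1 / (n + 1) / 2
  have r0 : ∀ n, 0 < r n := fun n => by positivity
  have r1 : ∀ n, r n ≤ 1 / 2 := fun n => by
    have : (1 : ℝ) / (n + 1) ≤ 1 := div_le_one_of_le₀ (by simp) (by positivity)
    simp only [r]
    linarith
  have r2 : Tendsto r atTop (𝓝 0) := by
    have := (tendsto_one_div_add_atTop_nhds_zero_nat (𝕜 := ℝ)).div_const 2
    rwa [zero_div] at this
  let φ : ℕ → ContDiffBump (0 : P3) := fun n => ⟨r n / 2, r n, half_pos (r0 n), half_lt_self (r0 n)⟩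
  let θ : ContDiffBump (0 : P3) := ⟨R + 1 / 4, R + 1 / 2, by positivity, by linarith⟩
  let cv : ℕ → (P3 → ℝ) → P3 → ℝ := fun n f => (φ n).normed volume ⋆[lsmul ℝ ℝ, volume] f
  have s1 : ∀ n f, LocallyIntegrable f → ContDiff ℝ 1 (cv n f) := fun n f hf =>
    (φ n).hasCompactSupport_normed.contDiff_convolution_left (n := 1) _ (φ n).contDiff_normed hf
  have ex : ∀ n (f : P3 → ℝ), LocallyIntegrable f →
      ConvolutionExists ((φ n).normed volume) f (lsmul ℝ ℝ) :=
    fun n f hf => (φ n).hasCompactSupport_normed.convolutionExists_left _ (φ n).continuous_normed hf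
  have key : ∀ n, ∫ p in Ω, cv n h p ≤ Real.exp (r n) * l * A := fun n => by
    have c0 : 0 < Real.exp (r n) * l := by positivity
    have a1 := le_per (Ω := Ω)
      (X := fun p => θ p • (Real.exp (r n) * l)⁻¹ • (cv n f1 p, cv n f2 p, cv n f3 p))
      (θ.contDiff.smul (((s1 n _ w1.lf).prodMk ((s1 n _ w2.lf).prodMk (s1 n _ w3.lf))).const_smul _))
      θ.hasCompactSupport.smul_right fun p => ?_
    · rw [setIntegral_congr_fun (g := fun p => (Real.exp (r n) * l)⁻¹ * cv n h p)
        hΩ.measurableSet fun p hp => ?_, integral_const_mul] at a1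
      · exact (inv_mul_le_iff₀ c0).1 ((ENNReal.ofReal_le_ofReal_iff hA).1 (a1.trans hp))
      have a2 : (fun p => θ p • (Real.exp (r n) * l)⁻¹ • (cv n f1 p, cv n f2 p, cv n f3 p)) =ᶠ[𝓝 p]
          fun p => (Real.exp (r n) * l)⁻¹ • (cv n f1 p, cv n f2 p, cv n f3 p) := by
        filter_upwards [θ.eventuallyEq_one_of_mem_ball (closedBall_subset_ball
          (show R < R + 1 / 4 by linarith) (hR hp))] with q hq
        rw [hq, Pi.one_apply, one_smul]
      have d := fun f hf => (s1 n f hf).differentiable one_ne_zero p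
      have c1 := (φ n).contDiff_normed (μ := volume) (n := 1)
      have c2 := (φ n).hasCompactSupport_normed (μ := volume)
      simp only
      rw [dv, a2.fderiv_eq, ← dv, dv_mk (d _ w1.lf) (d _ w2.lf) (d _ w3.lf), w1.conv c1 c2,
        w2.conv c1 c2, w3.conv c1 c2]
      simp only [cv, h]
      rw [(ex n _ (w1.lh.add w2.lh) p).distrib_add (ex n _ w3.lh p),
        (ex n _ w1.lh p).distrib_add (ex n _ w2.lh p)]
    · by_cases a2 : θ p = 0
      · simp [a2, nsq]
      have a3 : p ∈ ball (0 : P3) (R + 1 / 2) := θ.support_eq ▸ a2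
      have a4 := nsq_conv w1.lf w2.lf w3.lf (φ n).continuous_normed (φ n).hasCompactSupport_normed
        (φ n).nonneg_normed (φ n).integral_normed (p := p) (c := (Real.exp (r n) * l) ^ 2)
        fun q hq => by
          have b1 : p - q ∈ ball (0 : P3) (r n) := (φ n).support_normed_eq (μ := volume) ▸ hq
          rw [mem_ball_zero_iff] at b1 a3
          have b2 := nsq_shift p (p - q) (f1 q, f2 q, f3 q) b1.le
          rw [sub_sub_cancel] at b2
          rw [mul_pow]
          refine b2.trans (mul_le_mul_of_nonneg_left (hb q (mem_ball_zero_iff.2 ?_)) (sq_nonneg _))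
          have b3 := norm_sub_le p (p - q)
          rw [sub_sub_cancel] at b3
          linarith [r1 n]
      rw [nsq_smul, nsq_smul]
      refine mul_le_one₀ (pow_le_one₀ θ.nonneg θ.le_one) (mul_nonneg (sq_nonneg _) (nsq_nonneg _ _)) ?_
      rw [inv_pow, inv_mul_le_iff₀ (by positivity), mul_one]
      exact a4
  have ae := ContDiffBump.ae_convolution_tendsto_right_of_locallyIntegrable (φ := φ) (K := 2) r2
    (.of_forall fun n => by simp only [φ]; linarith) lh
  have f1 := lintegral_liminf_le (μ := volume.restrict Ω) (u := atTop)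
    (f := fun n p => ENNReal.ofReal (cv n h p)) fun n => (s1 n h lh).continuous.measurable.ennreal_ofReal
  rw [lintegral_congr_ae (g := fun p => ENNReal.ofReal (h p)) ((ae_restrict_of_ae ae).mono
    fun p hp => (ENNReal.tendsto_ofReal hp).liminf_eq), ← ofReal_integral_eq_lintegral_ofReal
    (lh.integrableOn_isCompact hΩ) (.of_forall pos)] at f1
  have f2 : Tendsto (fun n => ENNReal.ofReal (Real.exp (r n) * l * A)) atTop
      (𝓝 (ENNReal.ofReal (l * A))) := ENNReal.tendsto_ofReal (by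
    simpa using (((Real.continuous_exp.tendsto 0).comp r2).mul_const l).mul_const A)
  refine (ENNReal.ofReal_le_ofReal_iff (by positivity)).1 (f1.trans (f2.liminf_eq ▸
    liminf_le_liminf (.of_forall fun n => ?_)))
  rw [← ofReal_integral_eq_lintegral_ofReal ((s1 n h lh).continuous.continuousOn.integrableOn_compact
    hΩ) (.of_forall fun p => integral_nonneg fun t => mul_nonneg ((φ n).nonneg_normed t) (pos _))]
  exact ENNReal.ofReal_le_ofReal (key n)

end Pool.Agent.Lib.MP_045627_gt
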