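import Pool.Agent.Lib.MP_045627_gt.TopA

/-! The upper half of the calibrating field. -/

namespace Pool.Agent.Lib.MP_045627_gt

open MeasureTheory Set Filter Metric
open scoped Topology Classical

/-- horizontal chords -/
def sec (Ω : Set P3) (w : ℝ × ℝ) : Set ℝ := {y | (w.1, y, w.2) ∈ Ω}

/-- the heights of chords of positive length -/
def hts (Ω : Set P3) (x : ℝ) : Set ℝ := {z | 0 < volume.real (sec Ω (x, z))}

/-- the size of the horizontal component -/
noncomputable def amp (Ω : Set P3) (c D : ℝ) (w : ℝ × ℝ) : ℝ :=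
  if w.2 ∈ hts Ω w.1 ∩ {s | rem (hts Ω w.1) s ≤ D} then
    √c * (Real.exp w.2 * √(rem (hts Ω w.1) w.2)) else 0

variable {Ω : Set P3} {R c D : ℝ}

lemma sec_sub (hR : Ω ⊆ closedBall 0 R) {w : ℝ × ℝ} {y : ℝ} (h : y ∈ sec Ω w) :
    |y| ≤ R ∧ ‖w‖ ≤ R := by
  have := mem_closedBall_zero_iff.1 (hR h)
  simp only [Prod.norm_def, max_le_iff, Real.norm_eq_abs] at this ⊢
  tauto

lemma sec_fin (hR : Ω ⊆ closedBall 0 R) (w : ℝ × ℝ) : volume (sec Ω w) ≠ ⊤ :=
  ne_top_of_le_ne_top (measure_Icc_lt_top (a := -R) (b := R)).ne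
    (measure_mono fun _ h => abs_le.1 (sec_sub hR h).1)

lemma hts_norm (hR : Ω ⊆ closedBall 0 R) {w : ℝ × ℝ} (h : w.2 ∈ hts Ω w.1) : ‖w‖ ≤ R := by
  obtain ⟨y, hy⟩ := nonempty_of_measureReal_ne_zero (ne_of_gt h)
  exact (sec_sub hR hy).2

lemma hts_sub (hR : Ω ⊆ closedBall 0 R) (x : ℝ) : hts Ω x ⊆ Icc (-R) R := fun z h =>
  abs_le.1 ((norm_snd_le (x, z)).trans (hts_norm hR (w := (x, z)) h))

lemma m_sec (hΩ : MeasurableSet Ω) : Measurable fun w => volume.real (sec Ω w) :=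
  (measurable_measure_prodMk_left (s := {q : (ℝ × ℝ) × ℝ | (q.1.1, q.2, q.1.2) ∈ Ω})
    ((by fun_prop : Measurable _) hΩ)).ennreal_toReal

lemma m_hts (hΩ : MeasurableSet Ω) : MeasurableSet {w : ℝ × ℝ | w.2 ∈ hts Ω w.1} :=
  measurableSet_lt measurable_const (m_sec hΩ)

lemma m_rem (hΩ : MeasurableSet Ω) : Measurable fun w : ℝ × ℝ => rem (hts Ω w.1) w.2 :=
  (measurable_measure_prodMk_left (s := {q : (ℝ × ℝ) × ℝ | q.2 ∈ hts Ω q.1.1} ∩ {q | q.1.2 < q.2})
    (((by fun_prop : Measurable fun q : (ℝ × ℝ) × ℝ => (q.1.1, q.2)) (m_hts hΩ)).inter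
      (measurableSet_lt (by fun_prop) (by fun_prop)))).ennreal_toReal

lemma m_lev (hΩ : MeasurableSet Ω) (D : ℝ) :
    MeasurableSet {w : ℝ × ℝ | w.2 ∈ hts Ω w.1 ∩ {s | rem (hts Ω w.1) s ≤ D}} :=
  (m_hts hΩ).inter (measurableSet_le (m_rem hΩ) measurable_const)

lemma m_amp (hΩ : MeasurableSet Ω) : Measurable (amp Ω c D) :=
  Measurable.ite (m_lev hΩ D) ((measurable_snd.exp.mul (m_rem hΩ).sqrt).const_mul _)
    measurable_const

lemma amp_nonneg (w : ℝ × ℝ) : 0 ≤ amp Ω c D w := by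
  unfold amp
  split_ifs <;> positivity

lemma amp_ne {w : ℝ × ℝ} (h : amp Ω c D w ≠ 0) :
    w.2 ∈ hts Ω w.1 ∩ {s | rem (hts Ω w.1) s ≤ D} := by_contra fun h' => h (if_neg h')

lemma amp_le (hR : Ω ⊆ closedBall 0 R) (w : ℝ × ℝ) :
    |amp Ω c D w| ≤ √c * (Real.exp R * √D) := by
  rw [abs_of_nonneg (amp_nonneg w), amp]
  split_ifs with h
  · have := Real.exp_le_exp.2 (hts_sub hR _ h.1).2
    have := Real.sqrt_le_sqrt (show rem (hts Ω w.1) w.2 ≤ D from h.2)
    gcongr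
  · positivity

theorem top_hor (hΩ : MeasurableSet Ω) (hR : Ω ⊆ closedBall 0 R) (c D : ℝ) :
    ∃ U h : P3 → ℝ, WD (0, 1, 0) U h ∧ (∀ p, 0 ≤ h p) ∧
      ∫ p in Ω, h p = 2 * ∫ w, amp Ω c D w ∧ ∀ p, |U p| ≤ amp Ω c D (p.1, p.2.2) := by
  let k : P3 → ℝ := fun q =>
    (sec Ω q.2).indicator (fun _ => amp Ω c D q.2 / volume.real (sec Ω q.2)) q.1
  have k0 : ∀ q, 0 ≤ k q := fun q =>
    indicator_nonneg (fun _ _ => div_nonneg (amp_nonneg _) measureReal_nonneg) _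
  have ms : ∀ w, MeasurableSet (sec Ω w) := fun w => (by fun_prop : Measurable _) hΩ
  have km : Measurable k := Measurable.ite (p := fun q : P3 => (q.2.1, q.1, q.2.2) ∈ Ω)
    ((by fun_prop : Measurable _) hΩ)
    (((m_amp hΩ).div (m_sec hΩ)).comp measurable_snd) measurable_const
  have k1 : ∀ w, Integrable fun y => k (y, w) := fun w =>
    (integrableOn_const (C := amp Ω c D w / volume.real (sec Ω w))
      (sec_fin hR w)).integrable_indicator (ms w)
  have k2 : ∀ w, ∫ y, k (y, w) = amp Ω c D w := fun w => by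
    simp only [k]
    rw [integral_indicator_const _ (ms w), smul_eq_mul]
    by_cases h : amp Ω c D w = 0
    · simp [h]
    · exact mul_div_cancel₀ _ (ne_of_gt (amp_ne h).1)
  have ia := int_of_bdd (m_amp hΩ (c := c) (D := D)) (amp_le hR)
    fun w h => hts_norm hR (amp_ne h).1
  have ki : Integrable k := (integrable_prod_iff' km.aestronglyMeasurable).2
    ⟨.of_forall k1, by simpa only [Real.norm_of_nonneg (k0 _), k2] using ia⟩
  have k3 : ∀ q, |prim 1 1 k q| ≤ amp Ω c D q.2 := fun q => by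
    rw [← k2, ← Real.norm_eq_abs, prim]
    exact norm_integral_le_of_norm_le (k1 q.2) (.of_forall fun u => by
      split_ifs <;> simp [abs_of_nonneg (k0 _)])
  refine ⟨_, _, (wd_prim km ki fun q => (k3 q).trans ((le_abs_self _).trans (amp_le hR _))).comp
    sw mp_sw rfl, fun p => mul_nonneg (by norm_num) (k0 _), ?_, fun p => k3 (sw p)⟩
  rw [setIntegral_eq_integral_of_forall_compl_eq_zero fun p hp => by
    simp only [k, sw_apply]; rw [indicator_of_notMem (show p.2.1 ∉ sec Ω (p.1, p.2.2) from hp),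
      mul_zero], mp_sw.integral_comp sw.toHomeomorph.measurableEmbedding fun q => (1 + 1) * k q,
    integral_const_mul, Measure.volume_eq_prod, integral_prod_symm _ ki, one_add_one_eq_two]
  simp only [k2]

theorem top_ver (hΩ : MeasurableSet Ω) (hR : Ω ⊆ closedBall 0 R) {L : ℝ} (hL : 0 ≤ L) :
    ∃ a k : P3 → ℝ, WD (0, 0, 1) (fun p => -a p) k ∧ (∀ p, 0 ≤ k p) ∧ (∀ p, 0 ≤ a p ∧ a p ≤ L) ∧
      ∀ p : P3, |p.2.1| ≤ R + 1 → rem (hts Ω p.1) p.2.2 ≤ L →
        a p = rem (hts Ω p.1) p.2.2 ∧ (p.2.2 ∈ hts Ω p.1 → k p = 1) := by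
  let S : ℝ × ℝ → Set ℝ := fun w =>
    {z | z ∈ hts Ω w.1 ∩ {s | rem (hts Ω w.1) s ≤ L} ∧ |w.2| ≤ R + 1}
  let k : P3 → ℝ := fun q => if q.1 ∈ S q.2 then 1 else 0
  have mS : MeasurableSet {q : P3 | q.1 ∈ S q.2} :=
    ((by fun_prop : Measurable fun q : P3 => (q.2.1, q.1)) (m_lev hΩ L)).inter
      (measurableSet_le measurable_snd.snd.abs measurable_const)
  have km : Measurable k := Measurable.ite mS measurable_const measurable_const
  have k0 : ∀ q, 0 ≤ k q := fun q => by simp only [k]; split_ifs <;> simp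
  have ki : Integrable k := int_of_bdd km (C := 1) (R := R + 1)
    (fun q => by simp only [k]; split_ifs <;> simp) fun q h => by
      have h1 : q.1 ∈ S q.2 := by_contra fun h' => h (if_neg h')
      have h2 := hts_norm hR (w := (q.2.1, q.1)) h1.1.1
      have h3 := h1.2
      simp only [Prod.norm_def, max_le_iff, Real.norm_eq_abs] at h2 ⊢
      exact ⟨by linarith [h2.2], by linarith [h2.1], h3⟩
  have k1 : ∀ q, prim 0 1 k q = -volume.real (S q.2 ∩ Ioi q.1) := fun q => by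
    have : MeasurableSet (S q.2) := measurable_prodMk_right (y := q.2) mS
    rw [← integral_indicator_one (this.inter measurableSet_Ioi), ← integral_neg, prim]
    refine integral_congr_ae (.of_forall fun u => ?_)
    by_cases h1 : u ≤ q.1 <;> by_cases h2 : u ∈ S q.2 <;>
      simp [k, h1, h2, indicator, not_le.1, not_lt.2]
  have k2 : ∀ q : P3, volume.real (S q.2 ∩ Ioi q.1) ≤ L := fun q =>
    (measureReal_mono (fun z hz => hz.1.1) (fin_of (hts_sub hR _) _)).trans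
      (rem_level (hts_sub hR _) hL).1
  have w := (wd_prim km ki (a := 0) (b := 1) (C := L) fun q => by
    rw [k1, abs_neg, abs_of_nonneg measureReal_nonneg]; exact k2 q).comp (e' := (0, 0, 1))
    (sw'.trans sw) (mp_sw.comp mp_sw') rfl
  simp only [k1, zero_add, one_mul] at w
  refine ⟨_, _, w, fun p => k0 _, fun p => ⟨measureReal_nonneg, k2 _⟩, fun p h1 h2 =>
    ⟨congrArg volume.real (Set.ext fun z => ⟨fun h => ⟨h.1.1.1, h.2⟩, fun h =>
      ⟨⟨⟨h.1, (rem_anti (hts_sub hR _) (le_of_lt h.2)).trans h2⟩, h1⟩, h.2⟩⟩),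
      fun h => if_pos ⟨⟨h, h2⟩, h1⟩⟩⟩

lemma ae_hts (hΩ : MeasurableSet Ω) (hR : Ω ⊆ closedBall 0 R) :
    ∀ᵐ p : P3, p ∈ Ω → p.2.2 ∈ hts Ω p.1 := by
  have h1 : MeasurableSet {q : P3 | sw q ∈ Ω → q.2.2 ∈ hts Ω q.2.1} :=
    (sw.continuous.measurable hΩ).imp (measurable_snd (m_hts hΩ))
  have h2 : ∀ᵐ q : P3, sw q ∈ Ω → q.2.2 ∈ hts Ω q.2.1 := by
    rw [Measure.volume_eq_prod, Measure.ae_prod_iff_ae_ae h1, Measure.ae_ae_comm h1]
    refine .of_forall fun w => ?_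
    by_cases h : w.2 ∈ hts Ω w.1
    · exact .of_forall fun _ _ => h
    · have h3 : volume (sec Ω w) = 0 := (measureReal_eq_zero_iff (sec_fin hR w)).1
        (le_antisymm (not_lt.1 h) measureReal_nonneg)
      filter_upwards [measure_eq_zero_iff_ae_notMem.1 h3] with y hy h' using absurd h' hy
  exact mp_sw.quasiMeasurePreserving.ae h2

theorem top (hΩ : MeasurableSet Ω) (hR : Ω ⊆ closedBall 0 R) (hc : 0 ≤ c) (hD : 0 ≤ D) :
    ∃ (g : ℝ → ℝ) (U h : P3 → ℝ), Measurable g ∧ Integrable g ∧ (∀ x, 0 ≤ g x) ∧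
      WD (0, 1, 0) U h ∧ (∀ p, 0 ≤ h p) ∧ ∫ p in Ω, h p = 2 * ∫ x, g x ∧
      ∀ L, D ≤ L → ∃ a k : P3 → ℝ, WD (0, 0, 1) (fun p => -a p) k ∧ (∀ p, 0 ≤ k p) ∧
        (∀ p, 0 ≤ a p ∧ a p ≤ L) ∧ (∀ p : P3, |p.2.1| ≤ R + 1 → U p = 0 ∨
          (a p ≤ D ∧ Real.exp (-2 * p.2.2) * U p ^ 2 ≤ c * a p)) ∧
        ∀ᵐ p : P3, p ∈ Ω → 1 ≤ k p ∨ Real.exp (p.2.2 + L) * (√c * gam D) ≤ g p.1 := by
  obtain ⟨U, h, w, h0, h1, h2⟩ := top_hor hΩ hR c D
  have ia := int_of_bdd (m_amp hΩ (c := c) (D := D)) (amp_le hR)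
    fun w h => hts_norm hR (amp_ne h).1
  refine ⟨fun x => ∫ z, amp Ω c D (x, z), U, h,
    (m_amp hΩ).stronglyMeasurable.integral_prod_right'.measurable, ia.integral_prod_left,
    fun x => integral_nonneg fun z => amp_nonneg _, w, h0, h1.trans (congrArg _ (integral_prod _ ia)),
    fun L hL => ?_⟩
  obtain ⟨a, k, w', k0, a0, a1⟩ := top_ver hΩ hR (hD.trans hL)
  refine ⟨a, k, w', k0, a0, fun p hp => or_iff_not_imp_left.2 fun hU => ?_, ?_⟩
  · have b1 := amp_ne ((abs_pos.2 hU).trans_le (h2 p)).ne'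
    have b2 : rem (hts Ω p.1) p.2.2 ≤ D := b1.2
    rw [(a1 p hp (b2.trans hL)).1]
    refine ⟨b2, ?_⟩
    have b3 := pow_le_pow_left₀ (abs_nonneg _) (h2 p) 2
    rw [sq_abs, amp, if_pos b1, mul_pow, mul_pow, Real.sq_sqrt hc, Real.sq_sqrt (rem_nonneg _ _),
      ← Real.exp_nat_mul] at b3
    refine (mul_le_mul_of_nonneg_left b3 (Real.exp_pos _).le).trans_eq ?_
    rw [mul_left_comm, ← mul_assoc (Real.exp _), ← Real.exp_add]
    simp
  · filter_upwards [ae_hts hΩ hR] with p h3 hp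
    rcases le_or_gt (rem (hts Ω p.1) p.2.2) L with h4 | h4
    · exact Or.inl ((a1 p ((sec_sub hR (w := (p.1, p.2.2)) hp).1.trans (by linarith)) h4).2
        (h3 hp)).ge
    · have mz : MeasurableSet (hts Ω p.1) := measurable_prodMk_left (m_hts hΩ)
      refine Or.inr ?_
      rw [mul_left_comm]
      refine (mul_le_mul_of_nonneg_left (rem_gain mz (hts_sub hR _) hD hL h4)
        (Real.sqrt_nonneg _)).trans_eq ?_
      have : MeasurableSet {s | rem (hts Ω p.1) s ≤ D} :=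
        (rem_anti (hts_sub hR p.1)).measurable measurableSet_Iic
      rw [← integral_const_mul, ← integral_indicator (mz.inter this)]
      exact integral_congr_ae (.of_forall fun z => by simp only [amp, indicator])

end Pool.Agent.Lib.MP_045627_gt
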