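import Pool.Agent.Lib.MP_045627_gt.Moll

/-! The part of a linear set above a given height. -/

namespace Pool.Agent.Lib.MP_045627_gt

open MeasureTheory Set Filter Metric
open scoped Topology

/-- the measure of the part of Z above s -/
noncomputable def rem (Z : Set ℝ) (s : ℝ) : ℝ := volume.real (Z ∩ Ioi s)

/-- an incomplete Gamma integral -/
noncomputable def gam (D : ℝ) : ℝ := ∫ s in (0 : ℝ)..D, Real.exp (-s) * √s

variable {Z : Set ℝ} {R : ℝ}

lemma rem_nonneg (Z : Set ℝ) (s : ℝ) : 0 ≤ rem Z s := measureReal_nonneg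

lemma fin_of (hR : Z ⊆ Icc (-R) R) (S : Set ℝ) : volume (Z ∩ S) ≠ ⊤ :=
  ne_top_of_le_ne_top measure_Icc_lt_top.ne (measure_mono (inter_subset_left.trans hR))

lemma rem_anti (hR : Z ⊆ Icc (-R) R) : Antitone (rem Z) := fun _ _ h =>
  measureReal_mono (inter_subset_inter_right _ (Ioi_subset_Ioi h)) (fin_of hR _)

lemma rem_lip (hR : Z ⊆ Icc (-R) R) {s t : ℝ} (h : s ≤ t) : rem Z s ≤ rem Z t + (t - s) := by
  refine (measureReal_mono (s₂ := Z ∩ Ioi t ∪ Ioc s t) (fun z hz => ?_)
    (measure_union_ne_top (fin_of hR _) measure_Ioc_lt_top.ne)).trans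
    ((measureReal_union_le _ _).trans_eq (by rw [Real.volume_real_Ioc_of_le h, rem]))
  rcases le_or_gt z t with h1 | h1
  exacts [Or.inr ⟨hz.2, h1⟩, Or.inl ⟨hz.1, h1⟩]

lemma rem_level (hR : Z ⊆ Icc (-R) R) {a : ℝ} (h0 : 0 ≤ a) :
    volume.real (Z ∩ {s | rem Z s ≤ a}) ≤ a ∧
      ∀ z, a < rem Z z → volume.real (Z ∩ {s | rem Z s ≤ a}) = a := by
  have key : ∀ z, a < rem Z z → volume.real (Z ∩ {s | rem Z s ≤ a}) = a := fun z hz => by
    have hb : BddBelow {s | rem Z s ≤ a} := ⟨z, fun s hs => le_of_not_gt fun h =>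
      (hz.trans_le (rem_anti hR h.le)).not_ge hs⟩
    have hn : {s | rem Z s ≤ a}.Nonempty := ⟨R, by
      rw [mem_ofPred_eq, rem, eq_empty_of_forall_notMem (s := Z ∩ Ioi R)
        fun s hs => (hR hs.1).2.not_gt hs.2, measureReal_empty]; exact h0⟩
    set t := sInf {s | rem Z s ≤ a}
    have h1 : rem Z t ≤ a := le_of_forall_pos_le_add fun ε hε => by
      obtain ⟨s, hs, h⟩ := exists_lt_of_csInf_lt hn (lt_add_of_pos_right t hε)
      linarith [rem_lip hR (csInf_le hb hs), show rem Z s ≤ a from hs]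
    have h2 : a ≤ rem Z t := le_of_forall_pos_le_add fun ε hε => by
      have : ¬rem Z (t - ε) ≤ a := fun h => (csInf_le hb h).not_gt (sub_lt_self t hε)
      linarith [rem_lip hR (sub_lt_self t hε).le, not_le.1 this]
    rw [show {s | rem Z s ≤ a} = Ici t from
      Set.ext fun s => ⟨fun h => csInf_le hb h, fun h => (rem_anti hR h).trans h1⟩,
      measureReal_congr (ae_eq_set_inter (ae_eq_refl Z) Ioi_ae_eq_Ici.symm)]
    exact le_antisymm h1 h2
  refine ⟨?_, key⟩
  by_cases h : a < rem Z (-R - 1)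
  · exact (key _ h).le
  · exact (measureReal_mono (s₂ := Z ∩ Ioi (-R - 1))
      (fun s hs => ⟨hs.1, show -R - 1 < s by linarith [(hR hs.1).1]⟩) (fin_of hR _)).trans
      (not_lt.1 h)

lemma rem_map (hR : Z ⊆ Icc (-R) R) {D z : ℝ} (hz : D < rem Z z) :
    (volume.restrict (Z ∩ {s | rem Z s ≤ D})).map (rem Z) = volume.restrict (Ioc 0 D) := by
  have hm := (rem_anti hR).measurable
  have : IsFiniteMeasure (volume.restrict (Z ∩ {s | rem Z s ≤ D})) :=
    isFiniteMeasure_restrict.2 (fin_of hR _)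
  refine Measure.ext_of_Iic _ _ fun a => ?_
  rw [Measure.map_apply hm measurableSet_Iic, Measure.restrict_apply (hm measurableSet_Iic),
    Measure.restrict_apply measurableSet_Iic, inter_comm (Iic a), Ioc_inter_Iic, Real.volume_Ioc,
    show rem Z ⁻¹' Iic a ∩ (Z ∩ {s | rem Z s ≤ D}) = Z ∩ {s | rem Z s ≤ min D a} by
      ext s; simp only [mem_inter_iff, mem_preimage, mem_Iic, mem_ofPred_eq, le_min_iff]; tauto]
  rcases lt_or_ge (min D a) 0 with h | h
  · rw [ENNReal.ofReal_of_nonpos (by linarith), eq_empty_of_forall_notMem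
      (s := Z ∩ {s | rem Z s ≤ min D a}) fun s hs => (h.trans_le (rem_nonneg Z s)).not_ge hs.2,
      measure_empty]
  · rw [← ofReal_measureReal (fin_of hR _), (rem_level hR h).2 z ((min_le_left _ _).trans_lt hz),
      sub_zero]

lemma rem_gain (hZ : MeasurableSet Z) (hR : Z ⊆ Icc (-R) R) {D L z : ℝ} (hD : 0 ≤ D) (hL : D ≤ L)
    (hz : L < rem Z z) : Real.exp (z + L) * gam D ≤
      ∫ s in Z ∩ {s | rem Z s ≤ D}, Real.exp s * √(rem Z s) := by
  have hm := (rem_anti hR).measurable
  have hS : MeasurableSet (Z ∩ {s | rem Z s ≤ D}) := hZ.inter (hm measurableSet_Iic)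
  have hc : Continuous fun s : ℝ => Real.exp (-s) * √s := by fun_prop
  rw [gam, intervalIntegral.integral_of_le hD, ← rem_map hR (hL.trans_lt hz),
    integral_map hm.aemeasurable hc.aestronglyMeasurable, ← integral_const_mul]
  refine integral_mono_of_nonneg (.of_forall fun s => by positivity)
    (Measure.integrableOn_of_bounded (M := Real.exp R * √D) (fin_of hR _)
      (by fun_prop : Measurable _).aestronglyMeasurable
      ((ae_restrict_iff' hS).2 (.of_forall fun s hs => ?_)))
    ((ae_restrict_iff' hS).2 (.of_forall fun s hs => ?_))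
  · rw [Real.norm_of_nonneg (by positivity)]
    exact mul_le_mul (Real.exp_le_exp.2 (hR hs.1).2) (Real.sqrt_le_sqrt hs.2) (by positivity)
      (by positivity)
  · have h1 : rem Z s ≤ D := hs.2
    have h2 : z ≤ s := le_of_not_gt fun h => by linarith [rem_anti hR h.le]
    simp only
    rw [← mul_assoc, ← Real.exp_add]
    exact mul_le_mul_of_nonneg_right (Real.exp_le_exp.2 (by linarith [rem_lip hR h2]))
      (Real.sqrt_nonneg _)

lemma int_of_bdd {α : Type} [MeasureSpace α] [NormedAddCommGroup α] [ProperSpace α] [BorelSpace α]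
    [IsFiniteMeasureOnCompacts (volume : Measure α)] {f : α → ℝ} (hm : Measurable f) {C R : ℝ}
    (h : ∀ p, |f p| ≤ C) (h' : ∀ p, f p ≠ 0 → ‖p‖ ≤ R) : Integrable f :=
  (integrableOn_iff_integrable_of_support_subset (s := closedBall 0 R)
    fun p hp => mem_closedBall_zero_iff.2 (h' p hp)).1 (Measure.integrableOn_of_bounded
      (isCompact_closedBall 0 R).measure_lt_top.ne hm.aestronglyMeasurable (.of_forall h))

/-- exchange of the first two coordinates -/
noncomputable def sw : P3 ≃L[ℝ] P3 := ((ContinuousLinearEquiv.prodAssoc ℝ ℝ ℝ ℝ).symm.trans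
  ((ContinuousLinearEquiv.prodComm ℝ ℝ ℝ).prodCongr (.refl ℝ ℝ))).trans
    (ContinuousLinearEquiv.prodAssoc ℝ ℝ ℝ ℝ)

/-- exchange of the last two coordinates -/
noncomputable def sw' : P3 ≃L[ℝ] P3 :=
  (ContinuousLinearEquiv.refl ℝ ℝ).prodCongr (ContinuousLinearEquiv.prodComm ℝ ℝ ℝ)

/-- reflection of the last coordinate -/
noncomputable def rf : P3 ≃L[ℝ] P3 := (ContinuousLinearEquiv.refl ℝ ℝ).prodCongr
  ((ContinuousLinearEquiv.refl ℝ ℝ).prodCongr (ContinuousLinearEquiv.neg ℝ))

lemma sw_apply (p : P3) : sw p = (p.2.1, p.1, p.2.2) := rfl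
lemma sw'_apply (p : P3) : sw' p = (p.1, p.2.2, p.2.1) := rfl
lemma rf_apply (p : P3) : rf p = (p.1, p.2.1, -p.2.2) := rfl

lemma mp_sw : MeasurePreserving sw :=
  (volume_preserving_prodAssoc.comp ((Measure.measurePreserving_swap (μ := volume)
    (ν := volume)).prod (MeasurePreserving.id volume))).comp volume_preserving_prodAssoc.symm

lemma mp_sw' : MeasurePreserving sw' :=
  (MeasurePreserving.id volume).prod (Measure.measurePreserving_swap (μ := volume) (ν := volume))

lemma mp_rf : MeasurePreserving rf := (MeasurePreserving.id volume).prod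
  ((MeasurePreserving.id volume).prod (Measure.measurePreserving_neg volume))

end Pool.Agent.Lib.MP_045627_gt
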