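import Pool.Agent.Lib.MP_045627_gt.Box
import Pool.Agent.Lib.MP_045627_gt.Low

/-! The upper bound for the isoperimetric profile. -/

namespace Pool.Agent.Lib.MP_045627_gt

open MeasureTheory Set Filter Metric
open scoped Topology

lemma gam_lim : Tendsto gam atTop (𝓝 (√Real.pi / 2)) := by
  have h1 : ∫ s in Ioi (0 : ℝ), Real.exp (-s) * √s = √Real.pi / 2 := by
    have := Real.Gamma_eq_integral (s := 1 / 2 + 1) (by norm_num)
    rw [Real.Gamma_add_one (by norm_num), Real.Gamma_one_half_eq, add_sub_cancel_right] at this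
    simp only [Real.sqrt_eq_rpow _]  at this ⊢
    linarith
  rw [← h1]
  refine intervalIntegral_tendsto_integral_Ioi 0 ?_ tendsto_id
  have := Real.GammaIntegral_convergent (s := 1 / 2 + 1) (by norm_num)
  simpa only [Real.sqrt_eq_rpow, add_sub_cancel_right] using this

theorem up {L V : ℝ} (hL : 0 < L) (hV : 0 < V) (h1 : Real.exp (-L) < gam (2 * L))
    (h2 : 1 / 2 + Real.exp (-L) / (2 * (gam (2 * L) - Real.exp (-L))) < L) :
    ∃ Ω : Set P3, IsCompact Ω ∧ volume Ω = ENNReal.ofReal V ∧ per Ω ≤ ENNReal.ofReal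
      (V / (L - (1 / 2 + Real.exp (-L) / (2 * (gam (2 * L) - Real.exp (-L))))) +
        8 * (gam (2 * L) + Real.exp (-L)) ^ 2 * Real.exp (2 * L)) := by
  set η := Real.exp (-L) with hη
  have η0 : 0 < η := Real.exp_pos _
  have w0 : ∀ s : ℝ, 0 < √(|s| + η ^ 2) := fun s => by positivity
  let p : ℝ → ℝ := fun s => Real.exp (-s) / √(|s| + η ^ 2)
  have p0 : ∀ s, 0 < p s := fun s => div_pos (Real.exp_pos _) (w0 s)
  have cp : Continuous p := Continuous.div (by fun_prop) (by fun_prop) fun s => (w0 s).ne'
  let G : ℝ → ℝ := fun r => ∫ s in (0 : ℝ)..r, p s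
  have dG : ∀ r, HasDerivAt G (p r) r := fun r => (cp.integral_hasStrictDerivAt 0 r).hasDerivAt
  have cG : Continuous G := continuous_iff_continuousAt.2 fun r => (dG r).continuousAt
  have mG := (strictMono_of_hasDerivAt_pos dG p0).monotone
  have G0 : G 0 = 0 := intervalIntegral.integral_same
  let q : ℝ → ℝ := fun s => Real.exp (-s) * √(|s| + η ^ 2)
  have cq : Continuous q := by fun_prop
  set c := ∫ s in (0 : ℝ)..2 * L, q s with hc
  have M0 : 0 ≤ 2 * L := by linarith
  have c1 : gam (2 * L) ≤ c := intervalIntegral.integral_mono_on M0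
    (Continuous.intervalIntegrable (by fun_prop) _ _) (cq.intervalIntegrable _ _) fun s _ =>
      mul_le_mul_of_nonneg_left (Real.sqrt_le_sqrt (by linarith [le_abs_self s, sq_nonneg η]))
        (Real.exp_pos _).le
  have c2 : c ≤ gam (2 * L) + η := by
    have a1 : ∫ s in (0 : ℝ)..2 * L, Real.exp (-s) * η = (1 - Real.exp (-(2 * L))) * η := by
      simp [intervalIntegral.integral_comp_neg (f := Real.exp)]
    have a2 := intervalIntegral.integral_mono_on (μ := volume) M0 (cq.intervalIntegrable _ _)
      (g := fun s => Real.exp (-s) * √s + Real.exp (-s) * η)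
      (Continuous.intervalIntegrable (by fun_prop) _ _) fun s hs => by
        rw [← mul_add]
        refine mul_le_mul_of_nonneg_left (Real.sqrt_le_iff.2 ⟨by positivity, ?_⟩) (Real.exp_pos _).le
        rw [abs_of_nonneg hs.1]
        nlinarith [Real.sq_sqrt hs.1, mul_nonneg (Real.sqrt_nonneg s) η0.le]
    rw [intervalIntegral.integral_add (Continuous.intervalIntegrable (by fun_prop) _ _)
      (Continuous.intervalIntegrable (by fun_prop) _ _), a1] at a2
    nlinarith [mul_pos (Real.exp_pos (-(2 * L))) η0, show gam (2 * L) =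
      ∫ s in (0 : ℝ)..2 * L, Real.exp (-s) * √s from rfl]
  have c3 : G (2 * L) / 2 - c = Real.exp (-(2 * L)) * √(2 * L + η ^ 2) - η := by
    have := intervalIntegral.integral_eq_sub_of_hasDerivAt (a := 0) (b := 2 * L)
      (f := fun s => Real.exp (-s) * √(s + η ^ 2)) (f' := fun s => p s / 2 - q s) (fun s hs => by
        rw [uIcc_of_le M0] at hs
        have b1 := (hasDerivAt_neg s).exp.mul (((hasDerivAt_id s).add_const (η ^ 2)).sqrt
          (by have := hs.1; positivity))
        refine b1.congr_deriv ?_
        simp only [p, q, abs_of_nonneg hs.1, id]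
        ring) (Continuous.intervalIntegrable (by fun_prop) _ _)
    rw [intervalIntegral.integral_sub (Continuous.intervalIntegrable (by fun_prop) _ _)
      (cq.intervalIntegrable _ _), intervalIntegral.integral_div] at this
    simpa [Real.sqrt_sq η0.le] using this
  have c4 : Real.exp (-(2 * L)) * √(2 * L + η ^ 2) ≤ η := by
    have a1 : η ≤ 1 := Real.exp_le_one_iff.2 (by linarith)
    have a2 : √(2 * L + η ^ 2) ≤ Real.exp L := Real.sqrt_le_iff.2 ⟨by positivity, by
      rw [sq (Real.exp L), ← Real.exp_add]
      nlinarith [Real.add_one_le_exp (L + L)]⟩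
    refine (mul_le_mul_of_nonneg_left a2 (Real.exp_pos _).le).trans_eq ?_
    rw [← Real.exp_add, hη]
    congr 1
    ring
  have c5 : 0 ≤ Real.exp (-(2 * L)) * √(2 * L + η ^ 2) := by positivity
  have c6 : ∫ s in (0 : ℝ)..2 * L, G s = (2 * L + η ^ 2) * G (2 * L) - c := by
    have := intervalIntegral.integral_eq_sub_of_hasDerivAt (a := 0) (b := 2 * L)
      (f := fun s => (s + η ^ 2) * G s) (f' := fun s => G s + q s) (fun s hs => by
        rw [uIcc_of_le M0] at hs
        refine (((hasDerivAt_id s).add_const (η ^ 2)).mul (dG s)).congr_deriv ?_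
        have b1 := Real.mul_self_sqrt (show 0 ≤ s + η ^ 2 by have := hs.1; positivity)
        have b2 := w0 s
        simp only [p, q, abs_of_nonneg hs.1, id] at b2 ⊢
        field_simp
        linear_combination (-Real.exp (-s)) * b1) ((cG.add cq).intervalIntegrable _ _)
    rw [intervalIntegral.integral_add (cG.intervalIntegrable _ _) (cq.intervalIntegrable _ _)] at this
    simp only [G0] at this
    linarith
  set d := G (2 * L) with hd
  have d0 : 0 < d := by linarith
  set J := ∫ z in -L..L, G (L + z) * G (L - z) with hJ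
  have J1 : 2 * L * d ^ 2 - 2 * d * c ≤ J := by
    have a1 := intervalIntegral.integral_mono_on (μ := volume) (a := -L) (b := L) (by linarith)
      (f := fun z => d * G (L + z) + d * G (L - z) - d ^ 2)
      (g := fun z => G (L + z) * G (L - z)) (Continuous.intervalIntegrable (by fun_prop) _ _)
      (Continuous.intervalIntegrable (by fun_prop) _ _) fun z hz => by
        nlinarith [mul_nonneg (sub_nonneg.2 (mG (show L + z ≤ 2 * L by linarith [hz.2])))
          (sub_nonneg.2 (mG (show L - z ≤ 2 * L by linarith [hz.1])))]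
    rw [intervalIntegral.integral_sub (Continuous.intervalIntegrable (by fun_prop) _ _)
      (Continuous.intervalIntegrable (by fun_prop) _ _), intervalIntegral.integral_add
      (Continuous.intervalIntegrable (by fun_prop) _ _)
      (Continuous.intervalIntegrable (by fun_prop) _ _), intervalIntegral.integral_const_mul,
      intervalIntegral.integral_const_mul, intervalIntegral.integral_comp_add_left G,
      intervalIntegral.integral_comp_sub_left G, add_neg_cancel, sub_self, sub_neg_eq_add,
      ← two_mul L, c6, intervalIntegral.integral_const, smul_eq_mul] at a1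
    nlinarith [mul_nonneg (sq_nonneg η) (sq_nonneg d)]
  set a := 1 / 2 + η / (2 * (gam (2 * L) - η)) with ha
  have J2 : 2 * d ^ 2 * (L - a) ≤ J := by
    have a1 : η / (2 * (c - η)) ≤ η / (2 * (gam (2 * L) - η)) := by gcongr
    have a2 : η / (2 * (c - η)) * (2 * (c - η)) = η := div_mul_cancel₀ _ (by linarith)
    have a3 : 0 ≤ η / (2 * (c - η)) := div_nonneg η0.le (by linarith)
    have a4 : c ≤ a * d := by
      nlinarith [mul_le_mul_of_nonneg_left (show 2 * (c - η) ≤ d by linarith)
        (show 0 ≤ 1 / 2 + η / (2 * (c - η)) by linarith), mul_le_mul_of_nonneg_right a1 d0.le]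
    nlinarith [mul_le_mul_of_nonneg_left a4 d0.le]
  have J0 : 0 < J := lt_of_lt_of_le (mul_pos (by positivity) (by linarith)) J2
  obtain ⟨b, b0, hb⟩ : ∃ b, 0 < b ∧ 4 * b ^ 2 * J = V :=
    ⟨√(V / (4 * J)), by positivity, by rw [Real.sq_sqrt (by positivity)]; field_simp⟩
  obtain ⟨Ω, k1, k2, k3⟩ := per_box hL (f := fun z => b * G (L + z)) (g := fun z => b * G (L - z))
    (f' := fun z => b * p (L + z)) (g' := fun z => b * p (L - z))
    (fun z => ((dG _).comp_const_add L z).const_mul b)
    (fun z => (((dG _).comp_const_sub L z).const_mul b).congr_deriv (mul_neg _ _))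
    (by fun_prop) (by fun_prop) (fun z => mul_pos b0 (p0 _)) (fun z => mul_pos b0 (p0 _))
    (by simp [G0]) (by simp [G0])
  refine ⟨Ω, k1, k2.trans (congrArg _ ?_), k3.trans (ENNReal.ofReal_le_ofReal ?_)⟩
  · simp only [mul_mul_mul_comm b _ b, intervalIntegral.integral_const_mul]
    rw [← hb, hJ]
    ring
  let F : ℝ → ℝ := fun s => b * p s + Real.exp (2 * L) / (2 * b) * q s
  have hF : ∫ s in (0 : ℝ)..2 * L, F s = b * d + Real.exp (2 * L) / (2 * b) * c := by
    rw [intervalIntegral.integral_add (Continuous.intervalIntegrable (by fun_prop) _ _)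
      (Continuous.intervalIntegrable (by fun_prop) _ _), intervalIntegral.integral_const_mul,
      intervalIntegral.integral_const_mul]
  have e : ∀ z, b * p (L + z) + (Real.exp (2 * z))⁻¹ / (2 * (b * p (L + z))) = F (L + z) :=
    fun z => by
      have b1 : Real.exp (2 * L) * Real.exp (-(L + z)) ^ 2 * Real.exp (2 * z) = 1 := by
        rw [← Real.exp_nat_mul, ← Real.exp_add, ← Real.exp_add, Real.exp_eq_one_iff]
        push_cast
        ring
      have b2 := w0 (L + z)
      simp only [F, p, q, add_right_inj]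
      field_simp
      linarith
  have e' : ∀ z, b * p (L - z) + (Real.exp (-2 * z))⁻¹ / (2 * (b * p (L - z))) = F (L - z) :=
    fun z => by simpa only [mul_neg, neg_mul, sub_eq_add_neg] using e (-z)
  simp only [e, e']
  rw [intervalIntegral.integral_comp_add_left F, intervalIntegral.integral_comp_sub_left F,
    add_neg_cancel, sub_self, sub_neg_eq_add, ← two_mul L, hF, ← hd]
  have a1 : 8 * b ^ 2 * d ^ 2 ≤ V / (L - a) := by
    rw [le_div_iff₀ (by linarith), ← hb]
    nlinarith [mul_le_mul_of_nonneg_left J2 (sq_nonneg b)]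
  have a2 : 4 * (d * c) ≤ 8 * (gam (2 * L) + η) ^ 2 := by
    nlinarith [mul_le_mul (show d ≤ 2 * (gam (2 * L) + η) by linarith) c2 (by linarith) (by linarith)]
  have a3 : 4 * (b * d) * (b * d + Real.exp (2 * L) / (2 * b) * c) =
      4 * b ^ 2 * d ^ 2 + 2 * (d * c) * Real.exp (2 * L) := by
    field_simp
    ring
  nlinarith [mul_le_mul_of_nonneg_right a2 (Real.exp_pos (2 * L)).le]

end Pool.Agent.Lib.MP_045627_gt
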